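import Pool.Agent.H19.BFL.Stmts3

/-!
# Monotonicity of the axioms of systems; finite families of constants
-/

set_option autoImplicit false

namespace Pool.Agent.H34.BFL

open Finset Real
open Pool.Agent.H49.Ent Pool.Agent.H32.Dense Pool.STK Pool.KS3 Pool.BFL

theorem Pb_mono' {W : Type} [Fintype W] {q : W → ℝ} (hq : ∀ w, 0 ≤ q w) {A B : W → Prop}
    (h : ∀ w, A w → B w) : Pb q A ≤ Pb q B := by
  classical
  unfold Pb
  refine Finset.sum_le_sum fun w _ => ?_
  have := hq w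
  by_cases hA : A w
  · rw [if_pos hA, if_pos (h w hA)]
  · rw [if_neg hA]
    split_ifs
    · exact hq w
    · exact le_rfl

theorem Ok_mono {n : ℕ} {D : Dat n} {K J r w₀ z M : ℕ} {κ κ' : ℝ} {q : D.Ω → ℝ}
    (h : D.Ok K J r w₀ z M κ q) (hκ : κ ≤ κ') : D.Ok K J r w₀ z M κ' q := by
  have hz : κ * z ≤ κ' * z := mul_le_mul_of_nonneg_right hκ (Nat.cast_nonneg z)
  have he : Real.exp (κ * z) ≤ Real.exp (κ' * z) := Real.exp_le_exp.2 hz
  exact
  { isLaw := h.isLaw
    r_le := h.r_le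
    top := h.top
    T_lt := h.T_lt
    E_le := h.E_le
    A_i₀ := h.A_i₀
    E_i₀ := h.E_i₀
    time := by linarith [h.time]
    pt_T := h.pt_T
    pt_Y := h.pt_Y
    c_pt := h.c_pt
    c_wn := h.c_wn
    c_c := h.c_c
    c_T := h.c_T
    y₀_near := fun k hk ω hω i => (h.y₀_near k hk ω hω i).trans
      (div_le_div_of_nonneg_right he (by positivity))
    F_deg := h.F_deg
    F_hgt := fun k hk ω hω => (h.F_hgt k hk ω hω).trans
      (div_le_div_of_nonneg_right he (by positivity))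
    F_grad := fun k hk ω hω b hb i => (h.F_grad k hk ω hω b hb i).trans he
    g_mono := h.g_mono
    g_ge := fun k hk => (h.g_ge k hk).trans (by linarith)
    nc := by
      obtain ⟨e, h1, h2, h3⟩ := h.nc
      refine ⟨e, h1, h2.trans hκ, fun ω hω u hu => le_trans ?_ (h3 ω hω u hu)⟩
      refine Pb_mono' h.isLaw.nonneg fun ω' hω' => ⟨hω'.1, hω'.2.trans ?_⟩
      exact Real.exp_le_exp.2 (by linarith) }

theorem Tube_mono {n : ℕ} {D : Dat n} {K J w₀ z B k : ℕ} {C₁ C₁' : ℝ} {q : D.Ω → ℝ}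
    {Q : D.Λ × ℕ → Pl n} {Qb : D.Γ → Pl n} (h : D.Tube K J w₀ z B k C₁ q Q Qb) (hC : C₁ ≤ C₁') :
    D.Tube K J w₀ z B k C₁' q Q Qb := by
  have hz : C₁ * z ≤ C₁' * z := mul_le_mul_of_nonneg_right hC (Nat.cast_nonneg z)
  have he : Real.exp (C₁ * z) ≤ Real.exp (C₁' * z) := Real.exp_le_exp.2 hz
  exact
  { deg := h.deg
    degb := h.degb
    agree := fun ω hω b hb => (h.agree ω hω b hb).trans
      (div_le_div_of_nonneg_right he (by positivity))
    hgt := fun ω hω => (h.hgt ω hω).trans (div_le_div_of_nonneg_right he (by positivity)) }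

theorem Cnt_mono {n : ℕ} {D : Dat n} {J k k₁ v P₁ P₂ : ℕ} {q : D.Ω → ℝ} {c κ κ' : ℝ}
    (h : D.Cnt J k k₁ v q c κ P₁ P₂) (hκ : κ ≤ κ') : D.Cnt J k k₁ v q c κ' P₁ P₂ :=
  fun ω hω => (h ω hω).trans (Real.exp_le_exp.2 (by linarith))

theorem Hom_le {n : ℕ} {D : Dat n} {z B B' k : ℕ} {s C₁ : ℝ} (h : D.Hom z B k s C₁)
    (hB : B' ≤ B) : D.Hom z B' k s C₁ := fun v hv => h v (hv.trans hB)

theorem Hom_near {n : ℕ} {D : Dat n} {z B k : ℕ} {s t C₁ : ℝ} (h : D.Hom z B k s C₁)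
    (hB : 0 < B) (ht : |s - t| ≤ 1 / B) : D.Hom z B k t (C₁ + 1) := by
  intro v hv
  have h1 := h v hv
  have h2 : |(s - t) * (v * z)| ≤ z := by
    rw [abs_mul]
    have hB' : (0 : ℝ) < B := by exact_mod_cast hB
    have hv' : (v : ℝ) ≤ B := by exact_mod_cast hv
    have h3 : |(v * z : ℝ)| ≤ B * z := by
      rw [abs_of_nonneg (by positivity)]
      exact mul_le_mul_of_nonneg_right hv' (Nat.cast_nonneg z)
    calc |s - t| * |(v * z : ℝ)| ≤ 1 / B * (B * z) :=
          mul_le_mul ht h3 (abs_nonneg _) (by positivity)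
      _ = z := by field_simp
  have h3 : (D.g (k + v) : ℝ) - D.g k - t * (v * z) =
      ((D.g (k + v) : ℝ) - D.g k - s * (v * z)) + (s - t) * (v * z) := by ring
  rw [h3]
  refine (abs_add_le _ _).trans ?_
  linarith

/-- The gap of the precisions. -/
theorem g_gap {n : ℕ} {D : Dat n} {z B k v A : ℕ} {s C₁ : ℝ} (h : D.Hom z B k s C₁) (hs : 1 ≤ s)
    (hv : v ≤ B) (hA : A + 2 * C₁ ≤ (B : ℝ) - v) : D.g (k + v) + A * z ≤ D.g (k + B) := by
  have h1 := (abs_le.1 (h v hv)).2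
  have h2 := (abs_le.1 (h B le_rfl)).1
  have hv' : (v : ℝ) ≤ B := by exact_mod_cast hv
  have hz : (0 : ℝ) ≤ z := Nat.cast_nonneg z
  have h3 : ((B : ℝ) - v) * z ≤ s * (((B : ℝ) - v) * z) :=
    le_mul_of_one_le_left (mul_nonneg (by linarith) hz) hs
  have h4 : (A + 2 * C₁) * z ≤ ((B : ℝ) - v) * z := mul_le_mul_of_nonneg_right hA hz
  have h5 : (D.g (k + v) : ℝ) + A * z ≤ D.g (k + B) := by nlinarith
  exact_mod_cast h5

theorem ex_imp {α : Type} [Nonempty α] {p : Prop} {Q : α → Prop} (h : p → ∃ a, Q a) :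
    ∃ a, p → Q a := by
  classical
  by_cases hp : p
  · obtain ⟨a, ha⟩ := h hp
    exact ⟨a, fun _ => ha⟩
  · exact ⟨Classical.arbitrary α, fun a => absurd a hp⟩

theorem fam_min (K : ℕ) (f : ℕ → ℝ) (h : ∀ j, 1 ≤ j ∧ j ≤ K → 0 < f j) :
    ∃ κ : ℝ, 0 < κ ∧ ∀ j, 1 ≤ j ∧ j ≤ K → κ ≤ f j := by
  induction K with
  | zero => exact ⟨1, one_pos, fun j hj => by omega⟩
  | succ K ih =>
    obtain ⟨κ, h0, h1⟩ := ih fun j hj => h j ⟨hj.1, by omega⟩
    refine ⟨min κ (f (K + 1)), lt_min h0 (h (K + 1) ⟨by omega, le_rfl⟩), fun j hj => ?_⟩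
    rcases Nat.lt_or_ge K j with hj' | hj'
    · have : j = K + 1 := by omega
      subst this
      exact min_le_right _ _
    · exact (min_le_left _ _).trans (h1 j ⟨hj.1, hj'⟩)

theorem fam_max (K : ℕ) (f : ℕ → ℝ) : ∃ C : ℝ, 1 ≤ C ∧ ∀ j, 1 ≤ j ∧ j ≤ K → f j ≤ C := by
  induction K with
  | zero => exact ⟨1, le_rfl, fun j hj => by omega⟩
  | succ K ih =>
    obtain ⟨C, h0, h1⟩ := ih
    refine ⟨max C (f (K + 1)), h0.trans (le_max_left _ _), fun j hj => ?_⟩
    rcases Nat.lt_or_ge K j with hj' | hj'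
    · have : j = K + 1 := by omega
      subst this
      exact le_max_right _ _
    · exact (h1 j ⟨hj.1, hj'⟩).trans (le_max_left _ _)

theorem fam_maxN (K : ℕ) (f : ℕ → ℕ) : ∃ C : ℕ, ∀ j, 1 ≤ j ∧ j ≤ K → f j ≤ C := by
  induction K with
  | zero => exact ⟨1, fun j hj => by omega⟩
  | succ K ih =>
    obtain ⟨C, h1⟩ := ih
    refine ⟨max C (f (K + 1)), fun j hj => ?_⟩
    rcases Nat.lt_or_ge K j with hj' | hj'
    · have : j = K + 1 := by omega
      subst this
      exact le_max_right _ _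
    · exact (h1 j ⟨hj.1, hj'⟩).trans (le_max_left _ _)

/-- Most levels have a good partner. -/
theorem partner_card (N d : ℕ) (Good : Finset ℕ) (hG : Good ⊆ range N) :
    2 * (Good.card : ℝ) - N - d ≤ ((Good.filter fun k => k + d ∈ Good).card : ℝ) := by
  classical
  have h1 : (Good.filter fun k => ¬ k + d ∈ Good).card ≤ (range (N + d) \ Good).card := by
    refine Finset.card_le_card_of_injOn (fun k => k + d) ?_ ?_
    · intro k hk
      have hk' := Finset.mem_filter.1 hk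
      rw [Finset.mem_coe, Finset.mem_sdiff, Finset.mem_range]
      have := Finset.mem_range.1 (hG hk'.1)
      refine ⟨?_, hk'.2⟩
      show k + d < N + d
      omega
    · intro a _ b _ hab
      have : a + d = b + d := hab
      omega
  have h2 : Good ⊆ range (N + d) := hG.trans (Finset.range_subset_range.2 (by omega))
  have h3 := Finset.card_sdiff_add_card_eq_card h2
  have h4 := Finset.card_filter_add_card_filter_not (s := Good) (fun k => k + d ∈ Good)
  rw [Finset.card_range] at h3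
  have h5 : 2 * Good.card ≤ (Good.filter fun k => k + d ∈ Good).card + (N + d) := by omega
  have h6 : (2 : ℝ) * Good.card ≤ (Good.filter fun k => k + d ∈ Good).card + (N + d) := by
    exact_mod_cast h5
  linarith

end Pool.Agent.H34.BFL
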