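import Pool.Agent.H34.BFL.Mono

/-!
# Row MAI of the board kbfo: there is a new closed label at some level
-/

set_option autoImplicit false

namespace Pool.Agent.H34.BFL

open Finset Real
open Pool.Agent.H49.Ent Pool.Agent.H32.Dense Pool.STK Pool.KS3 Pool.BFL

/-- The choice of the level, from VEN and VCS. -/
theorem level {n K j U Bi L q' : ℕ} {C₂ C₃ η : ℝ} (hVCS : VCSStmt) {J r w₀ z M : ℕ}
    {κ : ℝ} (Good : Finset ℕ) (D : Dat n) (q : D.Ω → ℝ) (hOk : D.Ok K J r w₀ z M κ q)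
    (hU1 : 1 ≤ U) (hUB : 2 * U ≤ Bi) (hL : 1 ≤ L) (hq' : 1 ≤ q') (hC₃ : 1 ≤ C₃) (hη : 0 < η)
    (hη' : η * (8 * (C₃ * Bi)) ≤ 1) (hL8 : 8 * (C₃ * Bi) ≤ L)
    (hsub : Good ⊆ range (L * (Bi * q')))
    (hcard : (1 - η) * (L * (Bi * q') : ℕ) ≤ (Good.card : ℝ))
    (QQ : ℕ → D.Λ × ℕ → Pl n)
    (hV1 : ∀ k ∈ Good, ∀ k' ∈ Good, k' + U = k + Bi →
      H q (D.V J w₀ z j Bi U k C₂ (QQ k)) ≤ C₃ * (Bi * z) ∧
      CH q (D.V J w₀ z j Bi U k' C₂ (QQ k')) (fun ω => (D.V J w₀ z j Bi U k C₂ (QQ k) ω,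
        D.c (k' + U) ω)) ≤ C₃ * z) :
    ∃ k ∈ Good, CH q (D.V J w₀ z j Bi U k C₂ (QQ k)) (D.c (k + U)) -
      CH q (D.V J w₀ z j Bi U k C₂ (QQ k)) (D.c (k + Bi)) ≤ (C₃ + 1) * z := by
  classical
  have hp := hOk.isLaw.nonneg
  have hBi0 : 0 < Bi := by omega
  have hBiR : (1 : ℝ) ≤ Bi := by exact_mod_cast hBi0
  have hq'R : (1 : ℝ) ≤ q' := by exact_mod_cast hq'
  have hLR : (1 : ℝ) ≤ L := by exact_mod_cast hL
  have hCB : 1 ≤ C₃ * Bi := one_le_mul_of_one_le_of_one_le hC₃ hBiR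
  obtain ⟨G', hG'⟩ : ∃ G' : Finset ℕ, G' = Good.filter (fun k => k + (Bi - U) ∈ Good) := ⟨_, rfl⟩
  have hLq0 : (0 : ℝ) < (L * q' : ℕ) := by
    have : 0 < L * q' := Nat.mul_pos hL hq'
    exact_mod_cast this
  have hLqL : (L : ℝ) ≤ (L * q' : ℕ) := by
    push_cast
    nlinarith
  obtain ⟨x, hx⟩ : ∃ x : ℝ, x = 1 / ((L * q' : ℕ) : ℝ) := ⟨_, rfl⟩
  have hx0 : 0 < x := by rw [hx]; positivity
  have hx8 : x * (8 * (C₃ * Bi)) ≤ 1 := by
    rw [hx, one_div, inv_mul_le_iff₀ hLq0, mul_one]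
    exact hL8.trans hLqL
  have hη8 : η ≤ 1 / 8 := by nlinarith
  have hx88 : x ≤ 1 / 8 := by nlinarith
  have hNe : ((L * (Bi * q') : ℕ) : ℝ) = (L * q' : ℕ) * Bi := by push_cast; ring
  have hcard' : (1 - (2 * η + x)) * ((L * q' : ℕ) * Bi) ≤ (G'.card : ℝ) := by
    have h1 := partner_card (L * (Bi * q')) (Bi - U) Good hsub
    rw [← hG'] at h1
    refine le_trans ?_ h1
    rw [hNe] at hcard ⊢
    have h2 : ((Bi - U : ℕ) : ℝ) ≤ Bi := by exact_mod_cast Nat.sub_le _ _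
    have h3 : x * ((L * q' : ℕ) * Bi) = Bi := by
      rw [hx]; field_simp
    have h4 : (1 - (2 * η + x)) * (((L * q' : ℕ) : ℝ) * Bi) =
      2 * ((1 - η) * (((L * q' : ℕ) : ℝ) * Bi)) - ((L * q' : ℕ) : ℝ) * Bi -
        x * (((L * q' : ℕ) : ℝ) * Bi) := by ring
    rw [h4, h3]
    linarith
  have hG'm : ∀ k ∈ G', k ∈ Good ∧ k + (Bi - U) ∈ Good := fun k hk => by
    rw [hG'] at hk
    exact Finset.mem_filter.1 hk
  obtain ⟨k, hk, hk2⟩ := hVCS Bi U (L * q') G'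
    (fun k => CH q (D.V J w₀ z j Bi U k C₂ (QQ k)) (D.c (k + U)))
    (fun k => CH q (D.V J w₀ z j Bi U k C₂ (QQ k)) (D.c (k + Bi)))
    (C₃ * z) (C₃ * (Bi * z)) (2 * η + x) (Nat.mul_pos hL hq') (by omega) (by positivity)
    (by positivity)
    (by
      intro k hk
      have h1 := hsub (hG'm k hk).1
      rw [Finset.mem_range] at h1 ⊢
      calc k < L * (Bi * q') := h1
        _ = L * q' * Bi := by ring)
    (by positivity) (by linarith) hcard'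
    (by
      intro k hk
      refine ⟨CH_nonneg hp _ _, ?_⟩
      have h1 := (hV1 k (hG'm k hk).1 _ (hG'm k hk).2 (by omega)).1
      refine le_trans ?_ h1
      have h2 := CH_mono_cond hp (X := D.V J w₀ z j Bi U k C₂ (QQ k)) (W' := D.c (k + U))
        (W := fun _ => ()) (fun _ _ _ _ _ => rfl)
      refine h2.trans ?_
      unfold CH
      rw [H_const hOk.isLaw.sum_one, sub_zero]
      exact H_mono hp (fun ω ω' _ _ h => Prod.ext h rfl))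
    (by
      intro k hk k' hk' hkk
      have h1 := (hV1 k (hG'm k hk).1 k' (hG'm k' hk').1 hkk).2
      have h2 := CH_le_add hp (D.V J w₀ z j Bi U k' C₂ (QQ k')) (D.V J w₀ z j Bi U k C₂ (QQ k))
        (D.c (k' + U))
      rw [← hkk]
      linarith)
  refine ⟨k, (hG'm k hk).1, hk2.trans ?_⟩
  rw [← hx]
  have h1 : 2 * (C₃ * (Bi * z)) * (x + (2 * η + x)) ≤ z := by
    have h2 : 2 * (C₃ * (Bi * z)) * (x + (2 * η + x)) =
      (x * (8 * (C₃ * Bi)) / 2 + η * (8 * (C₃ * Bi)) / 2) * z := by ring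
    rw [h2]
    exact mul_le_of_le_one_left (Nat.cast_nonneg z) (by linarith)
  linarith

theorem mai_thm (hVEN : VENStmt) (hVCS : VCSStmt) (hCNL : CNLStmt) (hNON : NONStmt) :
    MAIStmt := by
  classical
  intro n K A U₀ C₁ C₃ c hn hK hC₁ hC₃ hc hc1
  have hC₁' : 1 ≤ C₁ + 1 := by linarith
  -- constants
  have e1 : ∀ j : ℕ, ∃ C₄ : ℝ, 1 ≤ j ∧ j ≤ K → _ := fun j =>
    ex_imp fun hj => hCNL n K j A (C₁ + 1) c hn hj.1 hj.2 hC₁' hc hc1
  choose C4 hC4 using e1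
  have e2 : ∀ j : ℕ, ∃ C₄ : ℝ, 1 ≤ j ∧ j ≤ K → _ := fun j =>
    ex_imp fun hj => hVEN n K j (C₁ + 1) hn hj.1 hj.2 hC₁'
  choose C4' hC4' using e2
  obtain ⟨C₂, hC₂1, hC₂⟩ := fam_max K (fun j => max (C4 j) (C4' j))
  have e3 : ∀ j : ℕ, ∃ C₃ : ℝ, 1 ≤ j ∧ j ≤ K → _ := fun j =>
    ex_imp fun hj => (hC4' j hj).2 C₂ ((le_max_right _ _).trans (hC₂ j hj))
  choose C3V hC3V using e3
  obtain ⟨CV, hCV1, hCV⟩ := fam_max K C3V
  obtain ⟨C3', hC3'⟩ : ∃ x : ℝ, x = max C₃ (CV + 1) := ⟨_, rfl⟩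
  have hC3'1 : 1 ≤ C3' := by rw [hC3']; exact hC₃.trans (le_max_left _ _)
  have hC3'a : C₃ ≤ C3' := by rw [hC3']; exact le_max_left _ _
  have hC3'b : CV + 1 ≤ C3' := by rw [hC3']; exact le_max_right _ _
  have e4 : ∀ j : ℕ, ∃ U₁ : ℕ, 1 ≤ j ∧ j ≤ K → _ := fun j =>
    ex_imp fun hj => (hC4 j hj).2 C₂ C3' ((le_max_left _ _).trans (hC₂ j hj)) hC3'1
  choose U1 hU1 using e4
  obtain ⟨Um, hUm⟩ := fam_maxN K U1
  obtain ⟨U, hU⟩ : ∃ U : ℕ, U = Um + U₀ + A + ⌈2 * C₁⌉₊ + 1 := ⟨_, rfl⟩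
  obtain ⟨Bi, hBi⟩ : ∃ Bi : ℕ, Bi = (K + 2) * U := ⟨_, rfl⟩
  have hBi3 : 3 * U ≤ Bi := by rw [hBi]; exact Nat.mul_le_mul_right _ (by omega)
  have hUpos : 1 ≤ U := by omega
  have hBipos : 1 ≤ Bi := by omega
  have hBiR : (1 : ℝ) ≤ Bi := by exact_mod_cast hBipos
  have e5 : ∀ j : ℕ, ∃ κ : ℝ, 1 ≤ j ∧ j ≤ K → _ := fun j =>
    ex_imp fun hj => (hU1 j hj).2 U Bi ((hUm j hj).trans (by omega)) hBi
  choose κC hκC using e5
  have e6 : ∀ j : ℕ, ∃ z₀ : ℕ, 1 ≤ j ∧ j ≤ K → _ := fun j => ex_imp fun hj => (hκC j hj).2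
  choose zC hzC using e6
  have e7 : ∀ j : ℕ, ∃ κ : ℝ, 1 ≤ j ∧ j ≤ K → _ := fun j =>
    ex_imp fun hj => (hC3V j hj).2 Bi U hUpos (by omega)
  choose κV hκV using e7
  have e8 : ∀ j : ℕ, ∃ z₀ : ℕ, 1 ≤ j ∧ j ≤ K → _ := fun j => ex_imp fun hj => (hκV j hj).2
  choose zV hzV using e8
  have e9 : ∀ j : ℕ, ∃ B₁ : ℕ, 1 ≤ j ∧ j ≤ K → _ := fun j =>
    ex_imp fun hj => hNON n K j A C₁ (1 / Bi) hn hC₁ (by positivity)
  choose B1 hB1 using e9
  obtain ⟨Bn', hBn'⟩ := fam_maxN K B1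
  obtain ⟨Bn, hBn⟩ : ∃ Bn : ℕ, Bn = Bn' + 1 := ⟨_, rfl⟩
  have e10 : ∀ j : ℕ, ∃ κ : ℝ, 1 ≤ j ∧ j ≤ K → _ := fun j =>
    ex_imp fun hj => hB1 j hj Bn ((hBn' j hj).trans (by omega))
  choose κN hκN using e10
  have e11 : ∀ j : ℕ, ∃ z₀ : ℕ, 1 ≤ j ∧ j ≤ K → _ := fun j => ex_imp fun hj => (hκN j hj).2
  choose zN hzN using e11
  obtain ⟨κ, hκ0, hκ⟩ := fam_min K (fun j => min (κC j) (min (κV j) (κN j)))
    (fun j hj => lt_min (hκC j hj).1 (lt_min (hκV j hj).1 (hκN j hj).1))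
  obtain ⟨z₀, hz₀⟩ := fam_maxN K (fun j => zC j + zV j + zN j)
  obtain ⟨q', hq'⟩ : ∃ q' : ℕ, q' = Bn + A + ⌈2 * C₁⌉₊ := ⟨_, rfl⟩
  have hq'1 : 1 ≤ q' := by omega
  obtain ⟨B, hB⟩ : ∃ B : ℕ, B = Bi * q' := ⟨_, rfl⟩
  have hBiB : Bi ≤ B := by rw [hB]; exact Nat.le_mul_of_pos_right _ hq'1
  have hq'B : q' ≤ B := by rw [hB]; exact Nat.le_mul_of_pos_left _ hBipos
  obtain ⟨L, hL⟩ : ∃ L : ℕ, L = ⌈8 * (CV * Bi)⌉₊ + 1 := ⟨_, rfl⟩
  have hL8 : 8 * (CV * Bi) ≤ L := by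
    rw [hL]
    push_cast
    linarith [Nat.le_ceil (8 * (CV * Bi))]
  have hCVB : 0 < CV * Bi := by positivity
  refine ⟨B, L, 1 / (8 * (CV * Bi)), κ, z₀, by omega, by omega, by positivity, hκ0, ?_⟩
  intro J r w₀ z M s Good D q hz hOk hM hs1 hsK hGood hcard hkB hHom hTube hCnt
  have hceil : 2 * C₁ ≤ (⌈2 * C₁⌉₊ : ℕ) := Nat.le_ceil _
  -- the integer case
  have hint : ∀ j : ℕ, 1 ≤ j ∧ j ≤ K → |s - j| ≤ 1 / Bi →
      ∃ k ∈ Good, ∃ v ≤ B, D.g (k + v) + A * z ≤ D.g (k + B) ∧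
        D.NewLab K J q (w₀ + (k + v) * z) (D.g (k + v) + A * z) := by
    intro j hj hsj
    have hT : ∀ k : ℕ, ∃ Q : D.Λ × ℕ → Pl n, ∃ Qb : D.Γ → Pl n, k ∈ Good →
        D.Tube K J w₀ z Bi k C₁ q Q Qb := by
      intro k
      by_cases hk : k ∈ Good
      · obtain ⟨Q, Qb, hQ⟩ := hTube k hk Bi hBipos hBiB
        exact ⟨Q, Qb, fun _ => hQ⟩
      · exact ⟨fun _ => 0, fun _ => 0, fun h => absurd h hk⟩
    choose QQ QQb hQQ using hT
    have hHi : ∀ k ∈ Good, D.Hom z Bi k j (C₁ + 1) := fun k hk =>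
      Hom_near (Hom_le (hHom k hk) hBiB) hBipos hsj
    have hTi : ∀ k ∈ Good, D.Tube K J w₀ z Bi k (C₁ + 1) q (QQ k) (QQb k) := fun k hk =>
      Tube_mono (hQQ k hk) (by linarith)
    have hκj := hκ j hj
    have hz₀j : zC j + zV j + zN j ≤ z := (hz₀ j hj).trans hz
    have hOkV : D.Ok K J r w₀ z M (κV j) q :=
      Ok_mono hOk (hκj.trans ((min_le_right _ _).trans (min_le_left _ _)))
    have hOkC : D.Ok K J r w₀ z M (κC j) q := Ok_mono hOk (hκj.trans (min_le_left _ _))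
    have hVV : C3V j ≤ CV := hCV j hj
    obtain ⟨k, hk, hk2⟩ := level (j := j) (U := U) (Bi := Bi) (L := L) (q' := q')
      (C₂ := C₂) (C₃ := CV) (η := 1 / (8 * (CV * Bi))) hVCS Good D q hOk hUpos (by omega)
      (by omega) hq'1 hCV1 (by positivity) (by rw [one_div, inv_mul_cancel₀ (by positivity)])
      hL8 (by rw [← hB]; exact hGood)
      (by
        rw [← hB]
        push_cast
        exact hcard) QQ
      (by
        intro k hk k' hk' hkk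
        have h1 := hzV j hj J r w₀ z M k k' D q (QQ k) (QQ k') (QQb k) (QQb k') (by omega) hOkV
          hkk ((Nat.add_le_add_left hBiB _).trans (hkB k' hk')) (hHi k hk) (hHi k' hk')
          (hTi k hk) (hTi k' hk')
        refine ⟨h1.1.trans ?_, h1.2.trans ?_⟩
        · exact mul_le_mul_of_nonneg_right hVV (by positivity)
        · exact mul_le_mul_of_nonneg_right hVV (by positivity))
    refine ⟨k, hk, U, by omega, ?_, ?_⟩
    · refine g_gap (hHom k hk) hs1 (by omega) ?_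
      have h1 : (U : ℝ) + U ≤ B := by
        have : U + U ≤ B := by omega
        exact_mod_cast this
      have h2 : (A : ℝ) + ⌈2 * C₁⌉₊ ≤ U := by
        have : A + ⌈2 * C₁⌉₊ ≤ U := by omega
        exact_mod_cast this
      linarith
    · refine hzC j hj J r w₀ z M k D q (QQ k) (QQb k) (by omega) hOkC
        ((Nat.add_le_add_left hBiB _).trans (hkB k hk)) (hHi k hk) (hTi k hk) ?_ ?_
      · refine hk2.trans ?_
        exact mul_le_mul_of_nonneg_right hC3'b (Nat.cast_nonneg z)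
      · intro P₁ P₂ hP₁ hP₂ hP₃
        refine Cnt_mono (hCnt k hk j U Bi hj.1 hj.2 (by omega) ?_ hBiB (hHi k hk) P₁ P₂ hP₁ hP₂
          hP₃) (mul_le_mul_of_nonneg_right hC3'a (Nat.cast_nonneg z))
        rw [hBi]
        exact Nat.mul_le_mul_right _ (by omega)
  -- the three cases
  obtain ⟨j, hj⟩ : ∃ j : ℕ, j = ⌊s⌋₊ := ⟨_, rfl⟩
  have hj1 : 1 ≤ j := by rw [hj]; exact Nat.le_floor (by exact_mod_cast hs1)
  have hjs : (j : ℝ) ≤ s := by rw [hj]; exact Nat.floor_le (by linarith)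
  have hsj : s < j + 1 := by rw [hj]; exact Nat.lt_floor_add_one s
  have hjK : j ≤ K := by
    have : (j : ℝ) ≤ K := hjs.trans hsK
    exact_mod_cast this
  have hσ0 : (0 : ℝ) < 1 / Bi := by positivity
  rcases le_or_gt (s - j) (1 / Bi) with h1 | h1
  · exact hint j ⟨hj1, hjK⟩ (by rw [abs_of_nonneg (by linarith)]; exact h1)
  rcases le_or_gt (j + 1 - s) (1 / Bi) with h2 | h2
  · refine hint (j + 1) ⟨by omega, ?_⟩ ?_
    · have : (j : ℝ) < K := by linarith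
      have : j < K := by exact_mod_cast this
      omega
    · push_cast
      rw [abs_sub_comm, abs_of_nonneg (by linarith)]
      exact h2
  -- the slope is not an integer
  have hne : Good.Nonempty := by
    rw [← Finset.card_pos]
    have h3 : (0 : ℝ) < (1 - 1 / (8 * (CV * Bi))) * (L * B) := by
      have h4 : 1 / (8 * (CV * Bi)) ≤ 1 / 8 := by
        refine one_div_le_one_div_of_le (by norm_num) ?_
        have := one_le_mul_of_one_le_of_one_le hCV1 hBiR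
        linarith
      have h5 : (0 : ℝ) < L := by
        have : 0 < L := by omega
        exact_mod_cast this
      have h6 : (0 : ℝ) < B := by
        have : 0 < B := by omega
        exact_mod_cast this
      exact mul_pos (by linarith) (mul_pos h5 h6)
    exact_mod_cast h3.trans_le hcard
  obtain ⟨k, hk⟩ := hne
  have hBnB : Bn ≤ B := by omega
  obtain ⟨Q, Qb, hQ⟩ := hTube k hk Bn (by omega) hBnB
  have hκj := hκ j ⟨hj1, hjK⟩
  have hz₀j : zC j + zV j + zN j ≤ z := (hz₀ j ⟨hj1, hjK⟩).trans hz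
  obtain ⟨v, hv, hNL⟩ := hzN j ⟨hj1, hjK⟩ J r w₀ z M k s D q Q Qb (by omega)
    (Ok_mono hOk (hκj.trans ((min_le_right _ _).trans (min_le_right _ _))))
    ((Nat.add_le_add_left hBnB _).trans (hkB k hk)) hsK (by linarith) (by linarith)
    (Hom_le (hHom k hk) hBnB) hQ
  refine ⟨k, hk, v, by omega, ?_, hNL⟩
  refine g_gap (hHom k hk) hs1 (by omega) ?_
  have h3 : (v : ℝ) + (A + ⌈2 * C₁⌉₊) ≤ B := by
    have : v + (A + ⌈2 * C₁⌉₊) ≤ B := by omega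
    exact_mod_cast this
  linarith

end Pool.Agent.H34.BFL
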