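import Pool.Agent.H19.BFL.Stmts4

/-!
# Row RTE of the board kbfo: rates of the rows for all smaller events
-/

set_option autoImplicit false

namespace Pool.Agent.H34.BFL

open Finset Real
open Pool.Agent.H49.Ent Pool.Agent.H32.Dense Pool.STK Pool.KS3 Pool.KA Pool.KSAT Pool.K2S
open Pool.PB Pool.BFL

/-- The finer digit lies in a box over the coarser digit. -/
theorem fl_box {g g' : ℕ} (hg : g ≤ g') (x : ℝ) :
    2 ^ (g' - g) * ⌊(2 : ℝ) ^ g * x⌋ ≤ ⌊(2 : ℝ) ^ g' * x⌋ ∧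
      ⌊(2 : ℝ) ^ g' * x⌋ < 2 ^ (g' - g) * (⌊(2 : ℝ) ^ g * x⌋ + 1) := by
  have e : (2 : ℝ) ^ g' = 2 ^ (g' - g) * 2 ^ g := by rw [← pow_add, Nat.sub_add_cancel hg]
  have hd : (0 : ℝ) < 2 ^ (g' - g) := by positivity
  constructor
  · rw [Int.le_floor, e]
    push_cast
    rw [mul_assoc]
    exact mul_le_mul_of_nonneg_left (Int.floor_le _) hd.le
  · rw [Int.floor_lt, e]
    push_cast
    rw [mul_assoc]
    exact mul_lt_mul_of_pos_left (Int.lt_floor_add_one _) hd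

theorem fl_nest {g g' : ℕ} (hg : g ≤ g') {x y : ℝ}
    (h : ⌊(2 : ℝ) ^ g' * x⌋ = ⌊(2 : ℝ) ^ g' * y⌋) : ⌊(2 : ℝ) ^ g * x⌋ = ⌊(2 : ℝ) ^ g * y⌋ := by
  have h1 := fl_box hg x
  have h2 := fl_box hg y
  rw [h] at h1
  have hd : (0 : ℤ) < 2 ^ (g' - g) := by positivity
  have h3 := lt_of_mul_lt_mul_left (h1.1.trans_lt h2.2) hd.le
  have h4 := lt_of_mul_lt_mul_left (h2.1.trans_lt h1.2) hd.le
  omega

/-- A monotone function: the increments over disjoint blocks. -/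
theorem blocks_le (D : ℕ → ℝ) (hD : Monotone D) (L P₁ : ℕ) (G : Finset ℕ) :
    ∀ P₂ : ℕ, P₁ ≤ P₂ → (∀ l ∈ G, P₁ ≤ l * L ∧ (l + 1) * L ≤ P₂) →
      ∑ l ∈ G, (D ((l + 1) * L) - D (l * L)) ≤ D P₂ - D P₁ := by
  refine Finset.induction_on_max G ?_ ?_
  · intro P₂ hP _
    rw [Finset.sum_empty]
    linarith [hD hP]
  · intro a s ha ih P₂ hP h
    have hna : a ∉ s := fun h' => lt_irrefl _ (ha a h')
    rw [Finset.sum_insert hna]
    have h1 := h a (Finset.mem_insert_self a s)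
    have h2 := ih (a * L) h1.1 (fun l hl => ⟨(h l (Finset.mem_insert_of_mem hl)).1,
      Nat.mul_le_mul_right _ (ha l hl)⟩)
    have h3 := hD h1.2
    linarith

section rows

variable {Ω T : Type} [Fintype Ω] {m : ℕ}

/-- The entropy of the finer position as a difference. -/
theorem CH_fl_diff {q : Ω → ℝ} (hq : ∀ ω, 0 ≤ q ω) (x : Ω → Fin m → ℝ) (W : Ω → T) {P P' : ℕ}
    (hP : P ≤ P') :
    CH q (fun ω => fl P' (x ω)) (fun ω => (fl P (x ω), W ω)) =
      H q (fun ω => (fl P' (x ω), W ω)) - H q (fun ω => (fl P (x ω), W ω)) := by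
  unfold CH
  congr 1
  refine H_congr hq ?_ ?_
  · intro ω ω' _ _ hh
    obtain ⟨h1, h2⟩ := Prod.ext_iff.1 hh
    refine Prod.ext h1 (Prod.ext ?_ h2)
    funext i
    exact fl_nest hP (congrFun h1 i)
  · intro ω ω' _ _ hh
    obtain ⟨h1, h2⟩ := Prod.ext_iff.1 hh
    exact Prod.ext h1 (Prod.ext_iff.1 h2).2

/-- A row costs at most `m log 2`. -/
theorem CH_fl_le {q : Ω → ℝ} (hq : IsLaw q) (x : Ω → Fin m → ℝ) (W : Ω → T) {P P' : ℕ}
    (hP : P ≤ P') :
    CH q (fun ω => fl P' (x ω)) (fun ω => (fl P (x ω), W ω)) ≤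
      m * (((P' : ℝ) - P) * Real.log 2) := by
  classical
  obtain ⟨d, hd⟩ : ∃ d, d = P' - P := ⟨_, rfl⟩
  have h1 := CH_le_card hq.nonneg hq.sum_one (fun ω => fl P' (x ω))
    (fun ω => (fl P (x ω), W ω))
    (fun z => Fintype.piFinset fun i => Finset.Ico (2 ^ d * z.1 i) (2 ^ d * (z.1 i + 1)))
    (by
      intro ω _
      rw [Fintype.mem_piFinset]
      intro i
      rw [Finset.mem_Ico, hd]
      exact fl_box hP (x ω i))
  refine h1.trans (le_of_eq ?_)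
  have h2 : ∀ ω, Real.log ((Fintype.piFinset fun i =>
      Finset.Ico (2 ^ d * fl P (x ω) i) (2 ^ d * (fl P (x ω) i + 1))).card : ℝ) =
      m * (((P' : ℝ) - P) * Real.log 2) := by
    intro ω
    rw [Fintype.card_piFinset]
    have h3 : ∀ i, (Finset.Ico (2 ^ d * fl P (x ω) i) (2 ^ d * (fl P (x ω) i + 1))).card =
        2 ^ d := by
      intro i
      rw [Int.card_Ico]
      have h4 : (2 : ℤ) ^ d * (fl P (x ω) i + 1) - 2 ^ d * fl P (x ω) i = ((2 ^ d : ℕ) : ℤ) := by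
        push_cast
        ring
      rw [h4, Int.toNat_natCast]
    simp only [h3]
    rw [Finset.prod_const, Finset.card_univ, Fintype.card_fin]
    push_cast
    rw [Real.log_pow, Real.log_pow, hd, Nat.cast_sub hP]
  simp only [h2]
  exact Ex_const hq.sum_one _

end rows

theorem rte_thm : RTEStmt := by
  classical
  intro m J F i₁ r Γ c y₀ Φ g A B L' G P₁ P₂ c₁ c₂ κ' hTr hBA hB hP _ hG hc
  obtain ⟨q, hqe⟩ : ∃ q : F.Ω → ℝ, q = Pool.Agent.H49.Ent.cond F.p B True := ⟨_, rfl⟩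
  have hp := F.isLaw.nonneg
  have hq : IsLaw q := by
    rw [hqe]
    exact ⟨cond_nonneg hp B True, sum_cond F.p B hB.ne'⟩
  have hsupp : ∀ ω, 0 < q ω → 0 < F.p ω ∧ B ω := by
    intro ω hω
    rw [hqe, cond_pos_iff hp] at hω
    exact ⟨hω.1, of_eq_true hω.2⟩
  obtain ⟨z, hz⟩ := hTr
  have hZ : ∀ ω, 0 < q ω → F.Z ω = z := fun ω hω => hz ω (hsupp ω hω).1.ne'
  obtain ⟨h, hh⟩ : ∃ h : ℕ → ℝ, h = fun P => H q (fun ω => (F.X P ω, F.W ω)) := ⟨_, rfl⟩
  have hdiff : ∀ P P' : ℕ, P ≤ P' →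
      CH q (F.X P') (fun ω => (F.X P ω, F.W ω)) = h P' - h P := by
    intro P P' hPP
    rw [hh]
    exact CH_fl_diff hq.nonneg F.x F.W hPP
  obtain ⟨D, hD⟩ : ∃ D : ℕ → ℝ, D = fun P : ℕ => m * ((P : ℝ) * Real.log 2) - h P :=
    ⟨_, rfl⟩
  have hmono : Monotone D := by
    intro P P' hPP
    have h1 := CH_fl_le hq F.x F.W hPP
    have h2 := hdiff P P' hPP
    have h3 : CH q (F.X P') (fun ω => (F.X P ω, F.W ω)) ≤
      m * (((P' : ℝ) - P) * Real.log 2) := h1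
    rw [h2] at h3
    rw [hD]
    simp only
    linarith
  have hblock : ∀ l ∈ G, c₁ * (L' * Real.log 2) ≤ D ((l + 1) * L') - D (l * L') := by
    intro l hl
    have hll : l * L' ≤ (l + 1) * L' := Nat.mul_le_mul_right _ (Nat.le_succ l)
    have h1 := CH_le_card hq.nonneg hq.sum_one (F.X ((l + 1) * L'))
      (fun ω => (F.X (l * L') ω, F.W ω))
      (fun z => (univ.filter fun ω' => 0 < q ω' ∧ (F.X (l * L') ω', F.W ω') = z).image
        (F.X ((l + 1) * L')))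
      (fun ω hω => Finset.mem_image_of_mem _
        (Finset.mem_filter.2 ⟨Finset.mem_univ ω, hω, rfl⟩))
    have h2 : CH q (F.X ((l + 1) * L')) (fun ω => (F.X (l * L') ω, F.W ω)) ≤
        (m - c₁) * (L' * Real.log 2) := by
      refine h1.trans ((Ex_mono hq.nonneg (g := fun _ => (m - c₁) * (L' * Real.log 2))
        fun ω hω => ?_).trans (le_of_eq (Ex_const hq.sum_one _)))
      have hpos : (0 : ℝ) < ((univ.filter fun ω' => 0 < q ω' ∧ (F.X (l * L') ω', F.W ω') =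
          (F.X (l * L') ω, F.W ω)).image (F.X ((l + 1) * L'))).card := by
        have : 0 < ((univ.filter fun ω' => 0 < q ω' ∧ (F.X (l * L') ω', F.W ω') =
          (F.X (l * L') ω, F.W ω)).image (F.X ((l + 1) * L'))).card :=
          Finset.card_pos.2 ⟨F.X ((l + 1) * L') ω, Finset.mem_image_of_mem _
            (Finset.mem_filter.2 ⟨Finset.mem_univ ω, hω, rfl⟩)⟩
        exact_mod_cast this
      rw [Real.log_le_iff_le_exp hpos]
      refine le_trans ?_ ((hG l hl).2.2 ω (hBA ω (hsupp ω hω).2))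
      rw [← Set.ncard_coe_finset]
      have hsub : (((univ.filter fun ω' => 0 < q ω' ∧ (F.X (l * L') ω', F.W ω') =
          (F.X (l * L') ω, F.W ω)).image (F.X ((l + 1) * L')) : Finset (Fin m → ℤ)) :
          Set (Fin m → ℤ)) ⊆ {x | ∃ ω', A ω' ∧ (F.X (l * L') ω', F.W ω') =
            (F.X (l * L') ω, F.W ω) ∧ x = F.X ((l + 1) * L') ω'} := by
        intro x hx
        rw [Finset.mem_coe, Finset.mem_image] at hx
        obtain ⟨ω', hω', hx'⟩ := hx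
        obtain ⟨-, h3, h4⟩ := Finset.mem_filter.1 hω'
        exact ⟨ω', hBA ω' (hsupp ω' h3).2, h4, hx'.symm⟩
      have hfin : {x | ∃ ω', A ω' ∧ (F.X (l * L') ω', F.W ω') =
            (F.X (l * L') ω, F.W ω) ∧ x = F.X ((l + 1) * L') ω'}.Finite := by
        refine (Set.finite_range (F.X ((l + 1) * L'))).subset ?_
        rintro x ⟨ω', -, -, hx'⟩
        exact ⟨ω', hx'.symm⟩
      exact_mod_cast Set.ncard_le_ncard hsub hfin
    rw [hdiff _ _ hll] at h2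
    rw [hD]
    simp only
    push_cast
    linarith
  have hsum := blocks_le D hmono L' P₁ G P₂ hP (fun l hl => ⟨(hG l hl).1, (hG l hl).2.1⟩)
  have hsum2 : c₁ * (L' * Real.log 2) * G.card ≤
      ∑ l ∈ G, (D ((l + 1) * L') - D (l * L')) := by
    have h1 := Finset.card_nsmul_le_sum G (fun l => D ((l + 1) * L') - D (l * L'))
      (c₁ * (L' * Real.log 2)) hblock
    rw [nsmul_eq_mul] at h1
    linarith
  -- the two forms of the point
  have hx : ∀ (P : ℕ) (ω : F.Ω) (i : Fin m), i ≠ i₁ →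
      (fdat F i₁ r c y₀ Φ g).cell J P ω i = F.X P ω i := by
    intro P ω i hi
    show ⌊(2 : ℝ) ^ P * (Function.update (F.l ω).1 i₁ 0 i +
      (F.T ω : ℝ) / 2 ^ J * Function.update (F.l ω).2 i₁ 1 i)⌋ = ⌊(2 : ℝ) ^ P * F.x ω i⌋
    rw [Function.update_of_ne hi, Function.update_of_ne hi]
    rfl
  have hx1 : ∀ (P : ℕ) (ω : F.Ω), (fdat F i₁ r c y₀ Φ g).cell J P ω i₁ =
      ⌊(2 : ℝ) ^ P * ((F.T ω : ℝ) / 2 ^ J)⌋ := by
    intro P ω
    show ⌊(2 : ℝ) ^ P * (Function.update (F.l ω).1 i₁ 0 i₁ +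
      (F.T ω : ℝ) / 2 ^ J * Function.update (F.l ω).2 i₁ 1 i₁)⌋ = _
    rw [Function.update_self, Function.update_self, zero_add, mul_one]
  have hd1 : ∀ P : ℕ, Det q (fun ω => ((fdat F i₁ r c y₀ Φ g).XY J P ω, F.T ω)) (F.X P) := by
    intro P ω ω' _ _ he
    obtain ⟨e1, e2⟩ := Prod.ext_iff.1 he
    obtain ⟨e3, e4⟩ := Prod.ext_iff.1 e1
    funext i
    by_cases hi : i = i₁
    · subst hi
      exact e4
    · rw [← hx P ω i hi, ← hx P ω' i hi]
      exact congrFun e3 i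
  have hd2 : ∀ P : ℕ, Det q (fun ω => (F.X P ω, F.W ω)) ((fdat F i₁ r c y₀ Φ g).XY J P) := by
    intro P ω ω' _ _ he
    obtain ⟨e1, e2⟩ := Prod.ext_iff.1 he
    have e3 : F.T ω = F.T ω' := (Prod.ext_iff.1 e2).1
    refine Prod.ext ?_ (congrFun e1 i₁)
    funext i
    show (fdat F i₁ r c y₀ Φ g).cell J P ω i = (fdat F i₁ r c y₀ Φ g).cell J P ω' i
    by_cases hi : i = i₁
    · subst hi
      rw [hx1, hx1, e3]
    · rw [hx P ω i hi, hx P ω' i hi]
      exact congrFun e1 i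
  show CH (Pool.Agent.H49.Ent.cond F.p B True) ((fdat F i₁ r c y₀ Φ g).XY J P₂)
    (fun ω => ((fdat F i₁ r c y₀ Φ g).XY J P₁ ω, F.T ω)) ≤
      (m - c₂) * (((P₂ : ℝ) - P₁) * Real.log 2) + κ'
  rw [← hqe]
  have hcg : CH q ((fdat F i₁ r c y₀ Φ g).XY J P₂)
      (fun ω => ((fdat F i₁ r c y₀ Φ g).XY J P₁ ω, F.T ω)) =
      CH q (F.X P₂) (fun ω => (F.X P₁ ω, F.W ω)) := by
    refine CH_congr hq.nonneg ?_ ?_ ?_ ?_
    · intro ω ω' a b he
      obtain ⟨e1, e2⟩ := Prod.ext_iff.1 he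
      exact hd1 P₂ ω ω' a b (Prod.ext e1 (Prod.ext_iff.1 e2).2)
    · intro ω ω' a b he
      obtain ⟨e1, e2⟩ := Prod.ext_iff.1 he
      exact hd2 P₂ ω ω' a b (Prod.ext e1 (Prod.ext_iff.1 e2).2)
    · intro ω ω' a b he
      refine Prod.ext (hd1 P₁ ω ω' a b he) (Prod.ext (Prod.ext_iff.1 he).2 ?_)
      exact (hZ ω a).trans (hZ ω' b).symm
    · intro ω ω' a b he
      exact Prod.ext (hd2 P₁ ω ω' a b he) (Prod.ext_iff.1 (Prod.ext_iff.1 he).2).1
  rw [hcg, hdiff P₁ P₂ hP]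
  rw [hD] at hsum
  simp only at hsum
  have e1 : D = fun P : ℕ => m * ((P : ℝ) * Real.log 2) - h P := hD
  rw [e1] at hsum2
  simp only at hsum2
  linarith

end Pool.Agent.H34.BFL
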