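import Pool.Agent.H34.BFL.Fre

/-!
# Choice of a value of the conditioning variable; upper bounds for the entropy of the rows
-/

set_option autoImplicit false

namespace Pool.Agent.H34.BFL

open Finset Real
open Pool.Agent.H49.Ent Pool.Agent.H32.Dense Pool.STK Pool.BFL

theorem Pb_ge {W : Type} [Fintype W] {q : W → ℝ} (hq : ∀ w, 0 ≤ q w) (A : W → Prop)
    (f : W → ℝ) (t : ℝ) (h0 : ∀ w, 0 < q w → 0 ≤ f w) (h1 : ∀ w, 0 < q w → A w → t ≤ f w) :
    t * Pb q A ≤ Ex q f := by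
  classical
  unfold Pb Ex
  rw [Finset.mul_sum]
  refine Finset.sum_le_sum fun w _ => ?_
  rcases (hq w).lt_or_eq with hw | hw
  · split_ifs with hA
    · rw [mul_comm]
      exact mul_le_mul_of_nonneg_left (h1 w hw hA) (hq w)
    · rw [mul_zero]
      exact mul_nonneg (hq w) (h0 w hw)
  · rw [← hw]
    simp

theorem Pb_le_add {W : Type} [Fintype W] {q : W → ℝ} (hq : ∀ w, 0 ≤ q w) (A G : W → Prop) :
    Pb q A ≤ Pb q (fun w => G w ∧ A w) + Pb q (fun w => ¬ G w) := by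
  classical
  unfold Pb
  rw [← Finset.sum_add_distrib]
  refine Finset.sum_le_sum fun w _ => ?_
  have := hq w
  by_cases hA : A w <;> by_cases hG : G w <;> simp [hA, hG, this]

/-- A good value of the conditioning variable. -/
theorem pick {W T : Type} [Fintype W] {q : W → ℝ} (hq : IsLaw q) {d : ℕ} (s : W → Fin d → ℤ)
    (m : ℕ) (hs : ∀ w a, |s w a| ≤ 2 ^ m) (v : W → T) (Gd KK : W → Prop) (D τ : ℝ) (hD : 0 ≤ D)
    (hτ : 0 < τ) (hH : d * (m * Real.log 2) - D ≤ CH q s v)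
    (hP : τ ≤ Pb q (fun w => Gd w ∧ KK w)) :
    ∃ w₀, 0 < q w₀ ∧ Gd w₀ ∧ KK w₀ ∧ d * (m * Real.log 2) - 2 * (D + 3 * d + 1) / τ ≤
      H (cond q (fun w => (Gd w, v w)) (Gd w₀, v w₀)) s := by
  classical
  have hp := hq.nonneg
  obtain ⟨Z, hZ⟩ : ∃ Z : W → Prop × T, Z = fun w => (Gd w, v w) := ⟨_, rfl⟩
  obtain ⟨M, hM⟩ : ∃ M : ℝ, M = d * (m * Real.log 2) + 3 * d := ⟨_, rfl⟩
  obtain ⟨A, hA⟩ : ∃ A : ℝ, A = D + 3 * d + 1 := ⟨_, rfl⟩
  have hA0 : 0 < A := by rw [hA]; positivity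
  have h1 : ∀ w, 0 < q w → 0 ≤ M - H (cond q Z (Z w)) s := by
    intro w hw
    have hl : 0 < law q Z (Z w) := law_pos hp Z hw
    have hc : IsLaw (cond q Z (Z w)) := ⟨cond_nonneg hp Z _, sum_cond q Z hl.ne'⟩
    have h2 := H_vec_le hc s (2 * 2 ^ m) (fun ω ω' _ _ k => by
      have h3 := hs ω k
      have h4 := hs ω' k
      have h5 : |(s ω k - s ω' k : ℤ)| ≤ 2 * 2 ^ m := by
        rw [abs_le] at h3 h4 ⊢
        constructor <;> linarith [h3.1, h3.2, h4.1, h4.2]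
      exact_mod_cast h5)
    have h3 : Real.log (2 * (2 * 2 ^ m) + 1) ≤ m * Real.log 2 + 3 := by
      have h4 : (2 * (2 * 2 ^ m) + 1 : ℝ) ≤ 2 ^ m * 2 ^ 3 := by
        have : (1 : ℝ) ≤ 2 ^ m := one_le_pow₀ (by norm_num)
        linarith
      refine (Real.log_le_log (by positivity) h4).trans ?_
      rw [Real.log_mul (by positivity) (by positivity), Real.log_pow, Real.log_pow]
      push_cast
      nlinarith [Real.log_two_lt_d9]
    have h4 : (d : ℝ) * Real.log (2 * (2 * 2 ^ m) + 1) ≤ d * (m * Real.log 2 + 3) :=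
      mul_le_mul_of_nonneg_left h3 (Nat.cast_nonneg d)
    rw [hM]
    linarith
  have h2 : CH q s v ≤ CH q s Z + 1 := by
    have h3 := CH_le_add hp s (fun w => Gd w) v
    have h4 := CH_le_card hp hq.sum_one (fun w => Gd w) v (fun _ => Finset.univ)
      (fun ω _ => Finset.mem_univ (Gd ω))
    rw [Ex_const hq.sum_one] at h4
    have h5 : Real.log ((Finset.univ : Finset Prop).card) ≤ 1 := by
      have h6 : (Finset.univ : Finset Prop).card = 2 := Fintype.card_prop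
      rw [h6]
      push_cast
      linarith [Real.log_two_lt_d9]
    rw [hZ]
    linarith
  have h3 : Ex q (fun w => H (cond q Z (Z w)) s) = CH q s Z := by
    rw [CH_eq_sum hp s Z]
    exact sum_mul_eq_sum_image q Z (fun z => H (cond q Z z) s)
  have h4 : Ex q (fun w => M - H (cond q Z (Z w)) s) ≤ A := by
    rw [Ex_sub, Ex_const hq.sum_one, h3, hM, hA]
    linarith
  by_contra hcon
  push Not at hcon
  have h5 := Pb_ge hp (fun w => Gd w ∧ KK w) (fun w => M - H (cond q Z (Z w)) s) (2 * A / τ) h1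
    (fun w hw hA' => by
      have h6 := hcon w hw hA'.1 hA'.2
      rw [hZ, hM, hA]
      have : (0 : ℝ) ≤ 3 * d := by positivity
      linarith)
  have h6 : 2 * A / τ * τ ≤ 2 * A / τ * Pb q (fun w => Gd w ∧ KK w) :=
    mul_le_mul_of_nonneg_left hP (by positivity)
  have h7 : 2 * A / τ * τ = 2 * A := by field_simp
  linarith

theorem floor_sub_le (x y : ℝ) : |((⌊x⌋ - ⌊y⌋ : ℤ) : ℝ)| ≤ |x - y| + 1 := by
  have h1 := Int.floor_le x
  have h2 := Int.lt_floor_add_one x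
  have h3 := Int.floor_le y
  have h4 := Int.lt_floor_add_one y
  have h5 := le_abs_self (x - y)
  have h6 := neg_abs_le (x - y)
  push_cast
  rw [abs_le]
  constructor <;> linarith

/-- Upper bound for the entropy of the height given the end point. -/
theorem rows_le {W T : Type} [Fintype W] {μ : W → ℝ} (hμ : IsLaw μ) (h : W → ℝ) (Yc : W → T)
    (bs : T → ℝ) (U P : ℕ) (V R : ℝ)
    (hV : ∀ w w', 0 < μ w → 0 < μ w' → Yc w = Yc w' → |h w - h w'| ≤ V)
    (hR : ∀ w, 0 < μ w → (Set.ncard {k : ℤ | ∃ w', 0 < μ w' ∧ Yc w' = Yc w ∧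
      ⌊(2 : ℝ) ^ P * h w'⌋ = ⌊(2 : ℝ) ^ P * h w⌋ ∧ k = ⌊(2 : ℝ) ^ U * h w'⌋} : ℝ) ≤ Real.exp R) :
    CH μ (fun w => ⌊(2 : ℝ) ^ U * (h w - bs (Yc w))⌋) Yc ≤
      Real.log (2 * (2 ^ P * V + 1) + 1) + R + 2 := by
  classical
  have hp := hμ.nonneg
  obtain ⟨X, hX⟩ : ∃ X : W → ℤ, X = fun w => ⌊(2 : ℝ) ^ U * h w⌋ := ⟨_, rfl⟩
  obtain ⟨X', hX'⟩ : ∃ X' : W → ℤ, X' = fun w => ⌊(2 : ℝ) ^ U * (h w - bs (Yc w))⌋ := ⟨_, rfl⟩
  obtain ⟨X₁, hX₁⟩ : ∃ X₁ : W → ℤ, X₁ = fun w => ⌊(2 : ℝ) ^ P * h w⌋ := ⟨_, rfl⟩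
  rw [← hX']
  have h1 := CH_le_add hp X' X Yc
  have h2 := CH_le_add hp X X₁ Yc
  have h3 : CH μ X' (fun w => (X w, Yc w)) ≤ 2 := by
    have h4 := CH_le_int hp hμ.sum_one X' (fun w => (X w, Yc w)) (fun _ => 2) (by
      intro w w' _ _ hh
      simp only [Prod.mk.injEq] at hh
      obtain ⟨h5, h6⟩ := hh
      rw [hX'] 
      simp only
      refine (floor_sub_le _ _).trans ?_
      rw [hX] at h5
      simp only at h5
      have h7 := Int.abs_sub_lt_one_of_floor_eq_floor h5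
      rw [h6]
      have h8 : (2 : ℝ) ^ U * (h w - bs (Yc w')) - 2 ^ U * (h w' - bs (Yc w')) =
        2 ^ U * h w - 2 ^ U * h w' := by ring
      rw [h8]
      linarith)
    rw [Ex_const hμ.sum_one] at h4
    have h5 : Real.log (2 * 2 + 1) ≤ 2 := by
      have h6 : (2 * 2 + 1 : ℝ) ≤ 2 ^ 3 - 1 := by norm_num
      have h7 : Real.log (2 * 2 + 1) ≤ Real.log (Real.exp 2) := by
        refine Real.log_le_log (by norm_num) ?_
        have h8 := Real.add_one_le_exp (1 : ℝ)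
        have h9 : Real.exp 2 = Real.exp 1 * Real.exp 1 := by rw [← Real.exp_add]; norm_num
        rw [h9]
        nlinarith [Real.exp_one_gt_d9]
      rwa [Real.log_exp] at h7
    linarith
  have h4 : CH μ X₁ Yc ≤ Real.log (2 * (2 ^ P * V + 1) + 1) := by
    have h5 := CH_le_int hp hμ.sum_one X₁ Yc (fun _ => 2 ^ P * V + 1) (by
      intro w w' hw hw' hh
      rw [hX₁]
      simp only
      refine (floor_sub_le _ _).trans ?_
      have h6 := hV w w' hw hw' hh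
      have h7 : (2 : ℝ) ^ P * h w - 2 ^ P * h w' = 2 ^ P * (h w - h w') := by ring
      rw [h7, abs_mul, abs_of_pos (by positivity : (0 : ℝ) < 2 ^ P)]
      have := mul_le_mul_of_nonneg_left h6 (by positivity : (0 : ℝ) ≤ 2 ^ P)
      linarith)
    rwa [Ex_const hμ.sum_one] at h5
  have h5 : CH μ X (fun w => (X₁ w, Yc w)) ≤ R := by
    obtain ⟨F, hF⟩ : ∃ F : ℤ × T → Finset ℤ, F = fun z =>
      (univ.filter fun w => 0 < μ w ∧ (X₁ w, Yc w) = z).image X := ⟨_, rfl⟩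
    have h6 := CH_le_card hp hμ.sum_one X (fun w => (X₁ w, Yc w)) F (by
      intro w hw
      rw [hF]
      exact Finset.mem_image_of_mem X (Finset.mem_filter.2 ⟨Finset.mem_univ w, hw, rfl⟩))
    refine h6.trans ?_
    refine (Ex_mono hp (g := fun _ => R) fun w hw => ?_).trans (le_of_eq (Ex_const hμ.sum_one R))
    have h7 : (0 : ℝ) < (F (X₁ w, Yc w)).card := by
      have : 0 < (F (X₁ w, Yc w)).card := by
        refine Finset.card_pos.2 ⟨X w, ?_⟩
        rw [hF]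
        exact Finset.mem_image_of_mem X (Finset.mem_filter.2 ⟨Finset.mem_univ w, hw, rfl⟩)
      exact_mod_cast this
    rw [Real.log_le_iff_le_exp h7]
    refine le_trans ?_ (hR w hw)
    have h8 : {k : ℤ | ∃ w', 0 < μ w' ∧ Yc w' = Yc w ∧
      ⌊(2 : ℝ) ^ P * h w'⌋ = ⌊(2 : ℝ) ^ P * h w⌋ ∧ k = ⌊(2 : ℝ) ^ U * h w'⌋} =
        (F (X₁ w, Yc w) : Set ℤ) := by
      ext k
      rw [hF]
      simp only [Set.mem_ofPred_eq, Finset.coe_image, Finset.coe_filter, Set.mem_image,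
        Finset.mem_univ, true_and, Prod.mk.injEq, hX₁, hX]
      constructor
      · rintro ⟨w', a1, a2, a3, a4⟩
        exact ⟨w', ⟨a1, a3, a2⟩, a4.symm⟩
      · rintro ⟨w', ⟨a1, a3, a2⟩, a4⟩
        exact ⟨w', a1, a2, a3, a4.symm⟩
    rw [h8, Set.ncard_coe_finset]
  linarith

end Pool.Agent.H34.BFL
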