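import Pool.Agent.H34.BFL.Ker

/-!
# The variation of a polynomial on a thin neighbourhood of a fibre
-/

set_option autoImplicit false

namespace Pool.Agent.H34.BFL

open Finset Real Pool.BFL

variable {n N : ℕ}

theorem co_eval (hN : n ≤ N) (E : Fin N → Fin n → ℝ) (hd : ldet hN E ≠ 0) (v : Fin n → ℝ)
    (i : Fin n) : ∑ k, co hN E v k * E (lst hN k) i = v i := by
  have hu : IsUnit (Am hN E).det := isUnit_iff_ne_zero.2 hd
  have h1 : (Am hN E).mulVec (co hN E v) = v := by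
    unfold co
    rw [Matrix.mulVec_mulVec, Matrix.mul_nonsing_inv _ hu, Matrix.one_mulVec]
  have h2 := congrFun h1 i
  rw [← h2]
  show _ = ∑ k, Am hN E i k * co hN E v k
  refine Finset.sum_congr rfl fun k _ => ?_
  rw [mul_comm]
  rfl

/-- The end point of `pt`. -/
theorem pt_sum (hN : n ≤ N) (E : Fin N → Fin n → ℝ) (hd : ldet hN E ≠ 0) (u : Fin N → ℝ)
    (v : Fin n → ℝ) (i : Fin n) : ∑ a, pt hN E u v a * E a i = v i := by
  rw [sum_split hN]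
  have h1 : ∑ a ∈ univ.filter (fun a : Fin N => a.val < N - n), pt hN E u v a * E a i =
      ∑ a ∈ univ.filter (fun a : Fin N => a.val < N - n), u a * E a i := by
    refine Finset.sum_congr rfl fun a ha => ?_
    unfold pt
    rw [dif_pos (Finset.mem_filter.1 ha).2]
  have h2 : ∀ k, pt hN E u v (lst hN k) = co hN E v k -
      ∑ b ∈ univ.filter (fun b : Fin N => b.val < N - n), u b * co hN E (E b) k := by
    intro k
    unfold pt
    rw [dif_neg (lst_not hN k), lst_sub]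
  have h3 : ∑ k, pt hN E u v (lst hN k) * E (lst hN k) i = v i -
      ∑ b ∈ univ.filter (fun b : Fin N => b.val < N - n), u b * E b i := by
    simp only [h2, sub_mul, Finset.sum_sub_distrib, co_eval hN E hd]
    congr 1
    simp only [Finset.sum_mul]
    rw [Finset.sum_comm]
    refine Finset.sum_congr rfl fun b _ => ?_
    rw [← co_eval hN E hd (E b) i, Finset.mul_sum]
    refine Finset.sum_congr rfl fun k _ => ?_
    ring
  rw [h1, h3]
  ring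

theorem KV_anti {E : Fin N → Fin n → ℝ} {Q : (Fin N → ℝ) → ℝ} {δ δ' : ℝ} (h : KV δ E Q)
    (hδ : δ' ≤ δ) : KV δ' E Q := by
  obtain ⟨σ, σ', h1, h2, h3, h4⟩ := h
  exact ⟨σ, σ', h1, h2, h3, lt_of_le_of_lt hδ h4⟩

theorem shrink {x ρ : ℝ} (hρ : 0 ≤ ρ) (hx : |x| ≤ 1 + ρ) :
    |x / (1 + ρ)| ≤ 1 ∧ |x - x / (1 + ρ)| ≤ ρ := by
  have h1 : 0 < 1 + ρ := by linarith
  constructor
  · rw [abs_div, abs_of_pos h1, div_le_one h1]
    exact hx
  · have h2 : x - x / (1 + ρ) = x / (1 + ρ) * ρ := by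
      field_simp
      ring
    have h3 : |x / (1 + ρ)| ≤ 1 := by
      rw [abs_div, abs_of_pos h1, div_le_one h1]
      exact hx
    rw [h2, abs_mul, abs_of_nonneg hρ]
    exact mul_le_of_le_one_left hρ h3

/-- The variation of `Q` on a thin neighbourhood of a fibre. -/
theorem var_near {j : ℕ} (hN : n ≤ N) (E : Fin N → Fin n → ℝ) {C₀ κ δ r η ρ : ℝ} {Q : Pl N}
    (hC₀ : 1 ≤ C₀) (hκ : 0 < κ) (hE : ∀ a i, |E a i| ≤ C₀) (hd : κ ≤ |ldet hN E|)
    (hQ : Q.totalDegree ≤ j) (hr : CB Q r) (σ σ' : Fin N → ℝ) (h1 : ∀ a, |σ a| ≤ 1)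
    (h2 : ∀ a, |σ' a| ≤ 1) (hη : 0 ≤ η)
    (hend : ∀ i, |∑ a, σ a * E a i - ∑ a, σ' a * E a i| ≤ η)
    (hρ : n * (n.factorial * C₀ ^ n) / κ * η ≤ ρ) (hρ1 : ρ ≤ 1)
    (hKV : ¬ KV δ E (fun σ => MvPolynomial.eval σ Q)) :
    |MvPolynomial.eval σ Q - MvPolynomial.eval σ' Q| ≤
      δ + 3 * (N * (ρ * ((Pool.Agent.H36.KBX.bx N j).card * (r * (j + 1) * 2 ^ (N * j))))) := by
  have hd0 : ldet hN E ≠ 0 := fun h => by
    rw [h, abs_zero] at hd
    linarith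
  have hρ0 : 0 ≤ ρ := le_trans (by positivity) hρ
  obtain ⟨τ, hτ⟩ : ∃ τ : Fin N → ℝ, τ = pt hN E σ' (fun i => ∑ a, σ a * E a i) := ⟨_, rfl⟩
  have h3 : ∀ a, |τ a - σ' a| ≤ ρ := by
    intro a
    have h4 := pt_end hN E hC₀ hκ hE hd σ' (fun i => ∑ a, σ a * E a i)
      (fun i => ∑ a, σ' a * E a i) hη hend a
    rw [pt_eq hN E hd0 σ'] at h4
    rw [hτ]
    exact h4.trans hρ
  have h4 : ∀ a, |τ a| ≤ 1 + ρ := by
    intro a
    have h5 := h3 a
    have h6 := h2 a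
    rw [abs_le] at h5 h6 ⊢
    constructor <;> linarith [h5.1, h5.2, h6.1, h6.2]
  have h5 : ∀ a, |σ a| ≤ 1 + ρ := fun a => (h1 a).trans (by linarith)
  have e1 : ∀ a, |τ a| ≤ 2 := fun a => (h4 a).trans (by linarith)
  have e2 : ∀ a, |σ a| ≤ 2 := fun a => (h1 a).trans (by norm_num)
  have e3 : ∀ a, |σ' a| ≤ 2 := fun a => (h2 a).trans (by norm_num)
  have e4 : ∀ a, |τ a / (1 + ρ)| ≤ 1 := fun a => (shrink hρ0 (h4 a)).1
  have e5 : ∀ a, |σ a / (1 + ρ)| ≤ 1 := fun a => (shrink hρ0 (h5 a)).1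
  have l1 := lip hQ hr (by norm_num : (1 : ℝ) ≤ 2) σ (fun a => σ a / (1 + ρ)) e2
    (fun a => (e5 a).trans (by norm_num)) ρ (fun a => (shrink hρ0 (h5 a)).2)
  have l2 := lip hQ hr (by norm_num : (1 : ℝ) ≤ 2) τ (fun a => τ a / (1 + ρ)) e1
    (fun a => (e4 a).trans (by norm_num)) ρ (fun a => (shrink hρ0 (h4 a)).2)
  have l3 := lip hQ hr (by norm_num : (1 : ℝ) ≤ 2) τ σ' e1 e3 ρ h3
  have l4 : |MvPolynomial.eval (fun a => σ a / (1 + ρ)) Q -
      MvPolynomial.eval (fun a => τ a / (1 + ρ)) Q| ≤ δ := by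
    by_contra hcon
    push Not at hcon
    refine hKV ⟨fun a => σ a / (1 + ρ), fun a => τ a / (1 + ρ), e5, e4, ?_, hcon⟩
    intro i
    have h6 : ∀ x : Fin N → ℝ, ∑ a, x a / (1 + ρ) * E a i = (∑ a, x a * E a i) / (1 + ρ) := by
      intro x
      rw [Finset.sum_div]
      refine Finset.sum_congr rfl fun a _ => ?_
      ring
    rw [h6, h6, hτ, pt_sum hN E hd0]
  rw [abs_le] at l1 l2 l3 l4 ⊢
  constructor <;> linarith [l1.1, l1.2, l2.1, l2.2, l3.1, l3.2, l4.1, l4.2]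

end Pool.Agent.H34.BFL
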