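import Pool.Agent.H34.BFL.FIB
import Pool.Agent.H34.BFL.Var
import Pool.Agent.H34.BFL.Pick

/-!
# Row KVR of the board kbfl: if the rows are not full then the kernel variation is small
-/

set_option autoImplicit false

namespace Pool.Agent.H34.BFL

open Finset Real
open Pool.Agent.H49.Ent Pool.Agent.H32.Dense Pool.STK Pool.KAL Pool.BFL

/-- The least scale at which the kernel variation is visible. -/
theorem exists_scale {n N : ℕ} {E : Fin N → Fin n → ℝ} {Q : (Fin N → ℝ) → ℝ} {U : ℕ}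
    {τ₀ τ₂ : ℝ} (h2 : τ₂ ≤ 1 / 2) (h3 : τ₂ ≤ τ₀) (hτ : 0 < τ₀)
    (hKV : KV (Real.exp (τ₀ * U) / 2 ^ U) E Q) :
    ∃ i : ℕ, KV (Real.exp (-(i : ℝ))) E Q ∧ ∃ y : ℝ, 0 ≤ y ∧ (i : ℝ) ≤ y + 1 ∧
      y ≤ U * Real.log 2 - τ₂ * U ∧ (i = 0 ∧ y = 0 ∨ ¬ KV (Real.exp (-y)) E Q) := by
  classical
  have h2U : (0 : ℝ) < 2 ^ U := by positivity
  have hU0 : (0 : ℝ) ≤ U := Nat.cast_nonneg U
  have h2Ue : (2 : ℝ) ^ U = Real.exp (U * Real.log 2) := by
    rw [← Real.rpow_natCast, Real.rpow_def_of_pos (by norm_num), mul_comm]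
  have hdiv : Real.exp (τ₀ * U) / 2 ^ U = Real.exp (τ₀ * U - U * Real.log 2) := by
    rw [h2Ue, Real.exp_sub]
  have hex : ∃ i : ℕ, KV (Real.exp (-(i : ℝ))) E Q := by
    refine ⟨⌈U * Real.log 2⌉₊, KV_anti hKV ?_⟩
    rw [hdiv]
    refine Real.exp_le_exp.2 ?_
    have h4 := Nat.le_ceil (U * Real.log 2 : ℝ)
    have h5 : 0 ≤ τ₀ * U := by positivity
    linarith only [h4, h5]
  refine ⟨Nat.find hex, Nat.find_spec hex, ?_⟩
  rcases Nat.eq_zero_or_pos (Nat.find hex) with h0 | h0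
  · refine ⟨0, le_rfl, ?_, ?_, Or.inl ⟨h0, rfl⟩⟩
    · rw [h0]; norm_num
    · have h4 : τ₂ * U ≤ 1 / 2 * U := mul_le_mul_of_nonneg_right h2 hU0
      have h5 : 1 / 2 * (U : ℝ) ≤ U * Real.log 2 := by
        have h6 := Real.log_two_gt_d9
        nlinarith only [h6]
      linarith only [h4, h5]
  · have h4 : ¬ KV (Real.exp (-((Nat.find hex - 1 : ℕ) : ℝ))) E Q :=
      Nat.find_min hex (Nat.sub_lt h0 one_pos)
    have h5 : ((Nat.find hex - 1 : ℕ) : ℝ) = (Nat.find hex : ℝ) - 1 := by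
      rw [Nat.cast_sub h0, Nat.cast_one]
    refine ⟨((Nat.find hex - 1 : ℕ) : ℝ), Nat.cast_nonneg _, ?_, ?_, Or.inr h4⟩
    · rw [h5]; linarith only [hex]
    · by_contra hcon
      push Not at hcon
      refine h4 (KV_anti hKV ?_)
      rw [hdiv]
      refine Real.exp_le_exp.2 ?_
      have h6 : τ₂ * U ≤ τ₀ * U := mul_le_mul_of_nonneg_right h3 hU0
      linarith only [hex, hcon, h6]

/-- The variation of the height given the end point. -/
theorem hgt_var {n N j : ℕ} (hN : n ≤ N) (E : Fin N → Fin n → ℝ) {C₀ e y : ℝ} {Q : Pl N}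
    {U m : ℕ} (hUm : U ≤ m) (hC₀ : 1 ≤ C₀) (he1 : 1 ≤ e) (hE : ∀ a i, |E a i| ≤ C₀)
    (hd : e⁻¹ ≤ |ldet hN E|) (hQ : Q.totalDegree ≤ j) (hr : CB Q e)
    (hy : Real.exp y ≤ 2 ^ U)
    (hρ1 : 2 * (n * (n.factorial * C₀ ^ n) * C₀) * e ≤ 2 ^ U)
    (hKV : y = 0 ∨ ¬ KV (Real.exp (-y)) E (fun σ => MvPolynomial.eval σ Q))
    {W : Type} (P : W → Prop) (s : W → Fin N → ℤ) (y₀ : Fin n → ℝ) (Yc : W → Fin n → ℤ)
    (bs : (Fin n → ℤ) → ℝ) (h : W → ℝ) (hs : ∀ w a, |s w a| ≤ 2 ^ m)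
    (hYc : ∀ w, P w → ∀ i, |(Yc w i : ℝ) - y₀ i - ∑ a, (s w a : ℝ) * E a i| ≤ C₀)
    (hh : ∀ w, P w → |h w - bs (Yc w) - MvPolynomial.eval (fun a => (s w a : ℝ) / 2 ^ m) Q| ≤
      e / 2 ^ U) :
    ∀ w w', P w → P w' → Yc w = Yc w' → |h w - h w'| ≤
      (3 + (2 + 6 * (n * (n.factorial * C₀ ^ n) * C₀)) *
        (N * ((Pool.Agent.H36.KBX.bx N j).card * ((j + 1) * 2 ^ (N * j))))) *
        (e * e) * Real.exp (-y) := by
  intro w w' hw hw' hY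
  have h2m : (0 : ℝ) < 2 ^ m := by positivity
  have h2U : (0 : ℝ) < 2 ^ U := by positivity
  have h2Um : (2 : ℝ) ^ U ≤ 2 ^ m := pow_le_pow_right₀ (by norm_num) hUm
  have he0 : 0 < e := by linarith only [he1]
  have hκ0 : 0 < e⁻¹ := inv_pos.2 he0
  obtain ⟨c₁, hc₁⟩ : ∃ c₁ : ℝ, c₁ = n * (n.factorial * C₀ ^ n) * C₀ := ⟨_, rfl⟩
  have hc₁0 : 0 ≤ c₁ := by rw [hc₁]; positivity
  obtain ⟨B, hB⟩ : ∃ B : ℝ, B = ((Pool.Agent.H36.KBX.bx N j).card : ℝ) := ⟨_, rfl⟩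
  have hB0 : 0 ≤ B := by rw [hB]; positivity
  obtain ⟨c₅, hc₅⟩ : ∃ c₅ : ℝ, c₅ = N * (B * ((j + 1) * 2 ^ (N * j))) := ⟨_, rfl⟩
  have hc₅0 : 0 ≤ c₅ := by rw [hc₅]; positivity
  rw [← hc₁] at hρ1 ⊢
  rw [← hB, ← hc₅]
  obtain ⟨x, hx⟩ : ∃ x : ℝ, x = Real.exp (-y) := ⟨_, rfl⟩
  have hx0 : 0 < x := by rw [hx]; exact Real.exp_pos _
  have hUx : 1 / 2 ^ U ≤ x := by
    rw [hx, Real.exp_neg, one_div]
    exact inv_anti₀ (Real.exp_pos _) hy
  have hmx : 1 / 2 ^ m ≤ x := (one_div_le_one_div_of_le h2U h2Um).trans hUx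
  rw [← hx] at hKV ⊢
  have hee : 1 ≤ e * e := by nlinarith only [he1]
  have hee2 : e ≤ e * e := by nlinarith only [hee, he1]
  have hs1 : ∀ w a, |(s w a : ℝ) / 2 ^ m| ≤ 1 := by
    intro w a
    rw [abs_div, abs_of_pos h2m, div_le_one h2m]
    exact_mod_cast hs w a
  have hQv : |MvPolynomial.eval (fun a => (s w a : ℝ) / 2 ^ m) Q -
      MvPolynomial.eval (fun a => (s w' a : ℝ) / 2 ^ m) Q| ≤
      (1 + (2 + 6 * c₁) * c₅) * (e * e) * x := by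
    rcases hKV with h0 | h0
    · have h1 := lip hQ hr (by norm_num : (1 : ℝ) ≤ 2) (fun a => (s w a : ℝ) / 2 ^ m)
        (fun a => (s w' a : ℝ) / 2 ^ m) (fun a => (hs1 w a).trans (by norm_num))
        (fun a => (hs1 w' a).trans (by norm_num)) 2 (fun a => by
          have h2 := hs1 w a
          have h3 := hs1 w' a
          rw [abs_le] at h2 h3 ⊢
          constructor <;> linarith only [h2, h3, h2.1, h2.2, h3.1, h3.2])
      refine h1.trans ?_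
      have hx1 : x = 1 := by rw [hx, h0, neg_zero, Real.exp_zero]
      rw [hx1, mul_one]
      have h4 : N * (2 * (((Pool.Agent.H36.KBX.bx N j).card : ℝ) *
          (e * (j + 1) * 2 ^ (N * j)))) = 2 * c₅ * e := by
        rw [hc₅, hB]; ring
      rw [h4]
      have h5 : 2 * c₅ * e ≤ 2 * c₅ * (e * e) := mul_le_mul_of_nonneg_left hee2 (by positivity)
      have h6 : 0 ≤ (1 + 6 * c₁ * c₅) * (e * e) := by positivity
      linarith only [h5, h6]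
    · have h1 := var_near hN E (ρ := 2 * c₁ * e / 2 ^ m) (η := 2 * C₀ / 2 ^ m) hC₀ hκ0 hE hd hQ
        hr (fun a => (s w a : ℝ) / 2 ^ m) (fun a => (s w' a : ℝ) / 2 ^ m) (hs1 w) (hs1 w')
        (by positivity) (by
          intro i
          have h2 := hYc w hw i
          have h3 := hYc w' hw' i
          rw [hY] at h2
          have h4 : ∑ a, (s w a : ℝ) / 2 ^ m * E a i - ∑ a, (s w' a : ℝ) / 2 ^ m * E a i =
              (((Yc w' i : ℝ) - y₀ i - ∑ a, (s w' a : ℝ) * E a i) -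
                ((Yc w' i : ℝ) - y₀ i - ∑ a, (s w a : ℝ) * E a i)) / 2 ^ m := by
            have h5 : ∀ z : W, ∑ a, (s z a : ℝ) / 2 ^ m * E a i =
                (∑ a, (s z a : ℝ) * E a i) / 2 ^ m := by
              intro z
              rw [Finset.sum_div]
              refine Finset.sum_congr rfl fun a _ => ?_
              ring
            rw [h5, h5]
            ring
          rw [h4, abs_div, abs_of_pos h2m]
          refine div_le_div_of_nonneg_right ?_ h2m.le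
          rw [abs_le] at h2 h3 ⊢
          constructor <;> linarith only [h2, h3, h2.1, h2.2, h3.1, h3.2])
        (by
          rw [div_inv_eq_mul, hc₁]
          refine le_of_eq ?_
          ring)
        (by
          rw [div_le_one h2m]
          exact hρ1.trans h2Um) h0
      refine h1.trans ?_
      have h4 : 3 * (N * (2 * c₁ * e / 2 ^ m * (((Pool.Agent.H36.KBX.bx N j).card : ℝ) *
          (e * (j + 1) * 2 ^ (N * j))))) = 6 * c₁ * c₅ * (e * e) * (1 / 2 ^ m) := by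
        rw [hc₅, hB]; ring
      rw [h4]
      have h5 : 6 * c₁ * c₅ * (e * e) * (1 / 2 ^ m) ≤ 6 * c₁ * c₅ * (e * e) * x :=
        mul_le_mul_of_nonneg_left hmx (by positivity)
      have h6 : 0 ≤ 2 * c₅ * (e * e) * x := by positivity
      have h7 : x ≤ (e * e) * x := le_mul_of_one_le_left hx0.le hee
      linarith only [h5, h6, h7]
  have h1 := hh w hw
  have h2 := hh w' hw'
  rw [hY] at h1
  have h3 : e / 2 ^ U ≤ (e * e) * x := by
    have h4 : e / 2 ^ U = e * (1 / 2 ^ U) := by ring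
    rw [h4]
    exact mul_le_mul hee2 hUx (by positivity) (by positivity)
  rw [abs_le] at h1 h2 hQv ⊢
  constructor <;> linarith only [hQv, h1, h2, h3, h1.1, h1.2, h2.1, h2.2, hQv.1, hQv.2]

theorem kvr_thm : KVRStmt := by
  classical
  intro n N j c C₀ τ₀ hN hc hC₀ hτ₀
  have hN0 : (0 : ℝ) ≤ N := Nat.cast_nonneg N
  obtain ⟨τ₂, hτ₂⟩ : ∃ t : ℝ, t = min τ₀ (1 / 2) := ⟨_, rfl⟩
  have hτ₂0 : 0 < τ₂ := by rw [hτ₂]; exact lt_min hτ₀ (by norm_num)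
  have hτ₂a : τ₂ ≤ τ₀ := by rw [hτ₂]; exact min_le_left _ _
  have hτ₂b : τ₂ ≤ 1 / 2 := by rw [hτ₂]; exact min_le_right _ _
  have hcτ : 0 < c * τ₂ := mul_pos hc hτ₂0
  obtain ⟨τF, hτF0, UF, hFIB⟩ := fib_thm n N j C₀ (c * τ₂ / 4) hN hC₀ (by positivity)
  obtain ⟨τ₁, hτ₁⟩ : ∃ t : ℝ, t = min (min τF (c * τ₂ / 12))
    (min (τ₀ / 2) (min (τF * τ₀ / 8) (1 / 4))) := ⟨_, rfl⟩
  have hτ₁0 : 0 < τ₁ := by
    rw [hτ₁]
    exact lt_min (lt_min hτF0 (by positivity)) (lt_min (by positivity)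
      (lt_min (by positivity) (by norm_num)))
  have hτ₁a : τ₁ ≤ τF := by rw [hτ₁]; exact (min_le_left _ _).trans (min_le_left _ _)
  have hτ₁b : τ₁ ≤ c * τ₂ / 12 := by
    rw [hτ₁]; exact (min_le_left _ _).trans (min_le_right _ _)
  have hτ₁c : τ₁ ≤ τ₀ / 2 := by rw [hτ₁]; exact (min_le_right _ _).trans (min_le_left _ _)
  have hτ₁d : τ₁ ≤ τF * τ₀ / 8 := by
    rw [hτ₁]; exact (min_le_right _ _).trans ((min_le_right _ _).trans (min_le_left _ _))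
  have hτ₁e : τ₁ ≤ 1 / 4 := by
    rw [hτ₁]; exact (min_le_right _ _).trans ((min_le_right _ _).trans (min_le_right _ _))
  obtain ⟨c₁, hc₁⟩ : ∃ c₁ : ℝ, c₁ = n * (n.factorial * C₀ ^ n) * C₀ := ⟨_, rfl⟩
  have hc₁0 : 0 ≤ c₁ := by rw [hc₁]; positivity
  obtain ⟨K₁, hK₁⟩ : ∃ K₁ : ℝ, K₁ = 3 + (2 + 6 * (n * (n.factorial * C₀ ^ n) * C₀)) *
    (N * (((Pool.Agent.H36.KBX.bx N j).card : ℝ) * ((j + 1) * 2 ^ (N * j)))) := ⟨_, rfl⟩
  have hK₁0 : 0 < K₁ := by rw [hK₁]; positivity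
  obtain ⟨k₂, hk₂⟩ : ∃ k₂ : ℝ, k₂ = Real.log (2 * K₁ + 3) + 4 := ⟨_, rfl⟩
  refine ⟨τ₁, hτ₁0, UF + ⌈2 * c₁ / (2 / 5)⌉₊ + ⌈k₂ / (c * τ₂ / 8)⌉₊ +
    ⌈4 * (3 * N + 1) / τ₀ / (τF / 2)⌉₊ + 1, ?_⟩
  intro U m hU hUm hmC W 𝒱 𝔅 _ q v β s E Q y₀ Yc base h Gd hq hDet hs hH hE hQ hQc hGd hgood
    hcount
  have hp := hq.nonneg
  by_contra hcon
  push Not at hcon
  obtain ⟨u, hu⟩ : ∃ u : ℝ, u = (U : ℝ) := ⟨_, rfl⟩
  have hu1 : 1 ≤ u := by
    rw [hu]
    exact_mod_cast (show 1 ≤ U by omega)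
  have hu0 : 0 < u := by linarith only [hτ₁0, hτ₁e, hu1]
  have hbig : ∀ A b : ℝ, 0 < b → ⌈A / b⌉₊ ≤ U → A ≤ b * u := by
    intro A b hb hA
    have h1 : A / b ≤ u := by
      rw [hu]
      exact (Nat.le_ceil _).trans (by exact_mod_cast hA)
    rw [div_le_iff₀ hb] at h1
    linarith only [h1]
  have hU1 : 2 * c₁ ≤ 2 / 5 * u := hbig _ _ (by norm_num) (by omega)
  have hU2 : k₂ ≤ c * τ₂ / 8 * u := hbig _ _ (by positivity) (by omega)
  have hU3 : 4 * (3 * N + 1) / τ₀ ≤ τF / 2 * u := hbig _ _ (by positivity) (by omega)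
  have h2m : (0 : ℝ) < 2 ^ m := by positivity
  have h2U : (0 : ℝ) < 2 ^ U := by positivity
  have h2Ue : (2 : ℝ) ^ U = Real.exp (u * Real.log 2) := by
    rw [← Real.rpow_natCast, Real.rpow_def_of_pos (by norm_num), hu, mul_comm]
  obtain ⟨KK, hKK⟩ : ∃ KK : W → Prop, KK = fun w => KV (Real.exp (τ₀ * U) / 2 ^ U) (E (v w))
    (fun σ => MvPolynomial.eval σ (Q (v w))) := ⟨_, rfl⟩
  rw [← hKK] at hcon
  have hP : τ₀ / 2 ≤ Pb q (fun w => Gd w ∧ KK w) := by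
    have h1 := Pb_le_add hp KK Gd
    linarith only [hτ₁c, hGd, hcon, h1]
  obtain ⟨w₀, hw₀, hG₀, hK₀, hH₀⟩ := pick hq s m hs v Gd KK (τ₁ * u) (τ₀ / 2) (by positivity)
    (by positivity) (by rw [hu]; exact hH) hP
  obtain ⟨Z, hZ⟩ : ∃ Z : W → Prop × 𝒱, Z = fun w => (Gd w, v w) := ⟨_, rfl⟩
  rw [← hZ] at hH₀
  obtain ⟨μ, hμe⟩ : ∃ μ : W → ℝ, μ = cond q Z (Gd w₀, v w₀) := ⟨_, rfl⟩
  rw [← hμe] at hH₀
  have hμ : IsLaw μ := by
    have h1 : 0 < law q Z (Gd w₀, v w₀) := by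
      have h2 := law_pos hp Z hw₀
      rw [hZ] at h2 ⊢
      exact h2
    rw [hμe]
    exact ⟨cond_nonneg hp Z _, sum_cond q Z h1.ne'⟩
  have hsupp : ∀ w, 0 < μ w → 0 < q w ∧ Gd w ∧ v w = v w₀ := by
    intro w hw
    rw [hμe, cond_pos_iff hp] at hw
    have h1 := hw.2
    rw [hZ] at h1
    simp only [Prod.mk.injEq] at h1
    exact ⟨hw.1, by rw [h1.1]; exact hG₀, h1.2⟩
  rw [hKK] at hK₀
  obtain ⟨i, hi, y, hy0, hiy, hyU, hcase⟩ := exists_scale hτ₂b hτ₂a hτ₀ hK₀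
  rw [← hu] at hyU
  obtain ⟨e, he⟩ : ∃ e : ℝ, e = Real.exp (τ₁ * u) := ⟨_, rfl⟩
  have he0 : 0 < e := by rw [he]; exact Real.exp_pos _
  have he1 : 1 ≤ e := by
    rw [he]
    exact Real.one_le_exp (by positivity)
  have hκe : Real.exp (-(τ₁ * u)) = e⁻¹ := by rw [he, Real.exp_neg]
  have heF : e ≤ Real.exp (τF * U) := by
    rw [he, ← hu]
    exact Real.exp_le_exp.2 (mul_le_mul_of_nonneg_right hτ₁a hu0.le)
  have hg : ∀ w, 0 < μ w → e⁻¹ ≤ |ldet hN (E (v w₀))| ∧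
      (∀ i, |(Yc w i : ℝ) - y₀ (v w₀) i - ∑ a, (s w a : ℝ) * E (v w₀) a i| ≤ C₀) ∧
      |h w - base (v w₀) (Yc w) - MvPolynomial.eval (fun a => (s w a : ℝ) / 2 ^ m)
        (Q (v w₀))| ≤ e / 2 ^ U := by
    intro w hw
    obtain ⟨h1, h2, h3⟩ := hsupp w hw
    have h4 := hgood w h2 h1
    rw [← hu, hκe, h3, ← he] at h4
    exact h4
  have hμ₀ : 0 < μ w₀ := by
    rw [hμe, cond_pos_iff hp]
    exact ⟨hw₀, by rw [hZ]⟩
  have hd := (hg w₀ hμ₀).1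
  have hHμ : N * (m * Real.log 2) - τF * U ≤ H μ s := by
    refine le_trans ?_ hH₀
    have h1 : 2 * (τ₁ * u + 3 * N + 1) / (τ₀ / 2) = 4 * τ₁ / τ₀ * u + 4 * (3 * N + 1) / τ₀ := by
      field_simp
      ring
    have h2 : 4 * τ₁ / τ₀ ≤ τF / 2 := by
      rw [div_le_iff₀ hτ₀]
      linarith only [hτ₁d]
    have h3 : 4 * τ₁ / τ₀ * u ≤ τF / 2 * u := mul_le_mul_of_nonneg_right h2 hu0.le
    rw [h1, ← hu]
    linarith only [hU3, h3]
  have hQc' : CB (Q (v w₀)) e := by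
    have h1 := hQc (v w₀)
    rw [← hu, ← he] at h1
    exact h1
  have hF := hFIB U m (by omega) hUm hmC W μ s (E (v w₀)) (Q (v w₀)) (y₀ (v w₀)) Yc
    (fun w => h w - base (v w₀) (Yc w)) i hμ hs hHμ (hE (v w₀))
    (by
      refine le_trans ?_ hd
      rw [← hκe, ← hu]
      refine Real.exp_le_exp.2 ?_
      have := mul_le_mul_of_nonneg_right hτ₁a hu0.le
      linarith only [this])
    (hQ (v w₀)) (fun k => (hQc' k).trans heF) (fun w hw => (hg w hw).2.1)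
    (fun w hw => ((hg w hw).2.2).trans (div_le_div_of_nonneg_right heF h2U.le))
    (Nat.cast_nonneg i) hi
  -- the variation of the height
  have hyU2 : Real.exp y ≤ 2 ^ U := by
    rw [h2Ue]
    refine Real.exp_le_exp.2 ?_
    have : 0 ≤ τ₂ * u := by positivity
    linarith only [hyU, this]
  have hρ1 : 2 * (n * (n.factorial * C₀ ^ n) * C₀) * e ≤ 2 ^ U := by
    rw [← hc₁]
    have h1 : 2 * c₁ ≤ Real.exp (2 / 5 * u) := by
      linarith only [hτ₁0, hτ₁e, hU1, Real.add_one_le_exp (2 / 5 * u)]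
    calc 2 * c₁ * e ≤ Real.exp (2 / 5 * u) * e := mul_le_mul_of_nonneg_right h1 he0.le
      _ = Real.exp (2 / 5 * u + τ₁ * u) := by rw [he, Real.exp_add]
      _ ≤ Real.exp (u * Real.log 2) := by
          refine Real.exp_le_exp.2 ?_
          have h2 := Real.log_two_gt_d9
          nlinarith only [hτ₁0, hτ₁e, hu, hu1, h2]
      _ = _ := h2Ue.symm
  have hV := hgt_var hN (E (v w₀)) hUm hC₀ he1 (hE (v w₀)) hd (hQ (v w₀)) hQc' hyU2 hρ1
    (hcase.imp (fun h => h.2) id) (fun w => 0 < μ w) s (y₀ (v w₀)) Yc (base (v w₀)) h hs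
    (fun w hw => (hg w hw).2.1) (fun w hw => (hg w hw).2.2)
  rw [← hK₁] at hV
  -- the rows
  obtain ⟨P, hPe⟩ : ∃ P : ℕ, P = ⌊y / Real.log 2⌋₊ := ⟨_, rfl⟩
  have hl2 : 0 < Real.log 2 := Real.log_pos (by norm_num)
  have hP1 : P * Real.log 2 ≤ y := by
    have h1 : (P : ℝ) ≤ y / Real.log 2 := by
      rw [hPe]
      exact Nat.floor_le (by positivity)
    rwa [le_div_iff₀ hl2] at h1
  have hP2 : y ≤ P * Real.log 2 + Real.log 2 := by
    have h1 : y / Real.log 2 < P + 1 := by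
      rw [hPe]
      exact Nat.lt_floor_add_one _
    rw [div_lt_iff₀ hl2] at h1
    linarith only [h1]
  have hPU : P ≤ U := by
    have h1 : (P : ℝ) * Real.log 2 ≤ u * Real.log 2 := by
      have : 0 ≤ τ₂ * u := by positivity
      linarith only [hyU, hP1, this]
    have h2 : (P : ℝ) ≤ u := le_of_mul_le_mul_right h1 hl2
    rw [hu] at h2
    exact_mod_cast h2
  have hrows := rows_le hμ h Yc (base (v w₀)) U P _
    ((1 - c) * ((U : ℝ) - P) * Real.log 2 + τ₁ * U) hV (by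
      intro w hw
      refine le_trans ?_ (hcount P U hPU le_rfl w (hsupp w hw).1)
      have h1 : {k : ℤ | ∃ w', 0 < μ w' ∧ Yc w' = Yc w ∧
          ⌊(2 : ℝ) ^ P * h w'⌋ = ⌊(2 : ℝ) ^ P * h w⌋ ∧ k = ⌊(2 : ℝ) ^ U * h w'⌋} ⊆
          {k : ℤ | ∃ w', 0 < q w' ∧ β w' = β w ∧ Yc w' = Yc w ∧
          ⌊(2 : ℝ) ^ P * h w'⌋ = ⌊(2 : ℝ) ^ P * h w⌋ ∧ k = ⌊(2 : ℝ) ^ U * h w'⌋} := by
        rintro k ⟨w', a1, a2, a3, a4⟩
        have h5 := hsupp w' a1
        have h6 := hsupp w hw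
        exact ⟨w', h5.1, hDet w' w h5.1 h6.1 (h5.2.2.trans h6.2.2.symm), a2, a3, a4⟩
      have h2 : {k : ℤ | ∃ w', 0 < q w' ∧ β w' = β w ∧ Yc w' = Yc w ∧
          ⌊(2 : ℝ) ^ P * h w'⌋ = ⌊(2 : ℝ) ^ P * h w⌋ ∧
          k = ⌊(2 : ℝ) ^ U * h w'⌋}.Finite := by
        refine (Set.finite_range (fun w' => ⌊(2 : ℝ) ^ U * h w'⌋)).subset ?_
        rintro k ⟨w', -, -, -, -, a5⟩
        exact ⟨w', a5.symm⟩
      exact_mod_cast Set.ncard_le_ncard h1 h2)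
  have hmain := hF.trans hrows
  have hlog : Real.log (2 * (2 ^ P * (K₁ * (e * e) * Real.exp (-y)) + 1) + 1) ≤
      Real.log (2 * K₁ + 3) + 2 * (τ₁ * u) := by
    have h1 : (2 : ℝ) ^ P * Real.exp (-y) ≤ 1 := by
      have h2 : (2 : ℝ) ^ P = Real.exp (P * Real.log 2) := by
        rw [← Real.rpow_natCast, Real.rpow_def_of_pos (by norm_num), mul_comm]
      rw [h2, ← Real.exp_add]
      exact Real.exp_le_one_iff.2 (by linarith only [hP1])
    have hee : 1 ≤ e * e := by nlinarith only [he1, he0]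
    have h3 : 2 * (2 ^ P * (K₁ * (e * e) * Real.exp (-y)) + 1) + 1 ≤
        (2 * K₁ + 3) * (e * e) := by
      have h4 : 2 ^ P * (K₁ * (e * e) * Real.exp (-y)) ≤ K₁ * (e * e) := by
        calc 2 ^ P * (K₁ * (e * e) * Real.exp (-y)) = K₁ * (e * e) * (2 ^ P * Real.exp (-y)) := by
              ring
          _ ≤ K₁ * (e * e) * 1 := mul_le_mul_of_nonneg_left h1 (by positivity)
          _ = _ := mul_one _
      linarith only [hee, h4]
    refine (Real.log_le_log (by positivity) h3).trans (le_of_eq ?_)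
    rw [Real.log_mul (by positivity) (by positivity), Real.log_mul he0.ne' he0.ne', he,
      Real.log_exp]
    ring
  rw [← hu] at hmain
  have hR : (1 - c) * (u - P) * Real.log 2 ≤ (u * Real.log 2 - y + Real.log 2) -
      c * (u * Real.log 2 - y) := by
    have h1 : c * (u * Real.log 2 - y) ≤ c * (u * Real.log 2 - P * Real.log 2) :=
      mul_le_mul_of_nonneg_left (by linarith only [hP1]) hc.le
    have h2 : (1 - c) * (u - P) * Real.log 2 = (u * Real.log 2 - P * Real.log 2) -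
      c * (u * Real.log 2 - P * Real.log 2) := by ring
    rw [h2]
    linarith only [hP2, h1]
  have hlast : c * (τ₂ * u) ≤ c * (u * Real.log 2 - y) :=
    mul_le_mul_of_nonneg_left (by linarith only [hyU]) hc.le
  have h3 : 3 * (τ₁ * u) ≤ c * τ₂ / 4 * u := by
    have := mul_le_mul_of_nonneg_right hτ₁b hu0.le
    linarith only [this]
  have h4 : 0 < c * τ₂ * u := by positivity
  have h5 : Real.log 2 ≤ 1 := by linarith only [hτ₁0, hτ₁e, Real.log_two_lt_d9]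
  linarith only [hk₂, hU2, hiy, hmain, hlog, hR, hlast, h3, h4, h5]

end Pool.Agent.H34.BFL
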