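import Pool.Agent.H34.BFL.Ker
import Pool.Agent.H68.KAL.RIN
import Pool.Agent.H99.KAL.GVI
import Pool.Agent.H77.KAL.RMN
import Pool.Agent.H33.KAL.RMG
import Pool.Agent.H36.KBX.TRM
import Pool.Agent.H33.KAL.IN4

/-!
# Probability of small values of polynomials, number of grid points in a fibre
-/

set_option autoImplicit false

namespace Pool.Agent.H34.BFL

open Finset Real
open Pool.Agent.H49.Ent Pool.Agent.H32.Dense Pool.STK Pool.KAL Pool.BFL

/-- The probability that a polynomial is much smaller than its maximum on the cube. -/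
theorem small_prob (N j : ℕ) : ∃ C : ℝ, 0 ≤ C ∧ ∀ (W : Type) [Fintype W] (μ : W → ℝ)
    (s : W → Fin N → ℤ) (m U : ℕ) (R : Pl N) (t A : ℝ), IsLaw μ →
    (∀ w a, |s w a| ≤ 2 ^ m) → R.totalDegree ≤ j → U ≤ m → 0 < U → 0 < t → t ≤ 1 / 2 → 0 < A →
    (∃ ξ : Fin N → ℝ, (∀ a, |ξ a| ≤ 1) ∧ A ≤ |MvPolynomial.eval ξ R|) →
    Pb μ (fun w => |MvPolynomial.eval (fun a => (s w a : ℝ) / 2 ^ m) R| ≤
      A * Real.exp (-(t * U))) ≤ C * ((N * (m * Real.log 2) - H μ s) + 2 * N + 1) / (t * U) := by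
  classical
  obtain ⟨C, hC0, hC⟩ := rin2_thm (rmn_thm rmg_thm) gvi_thm N j 1
  refine ⟨C, hC0, ?_⟩
  intro W _ μ s m U R t A hμ hs hR hU hU0 ht ht2 hA hξ
  obtain ⟨ξ, hξ1, hξ2⟩ := hξ
  have h2m : (0 : ℝ) < 2 ^ m := by positivity
  obtain ⟨M, hM⟩ : ∃ M : ℕ, M = 2 ^ (m + 1) + 1 := ⟨_, rfl⟩
  have hMr : (M : ℝ) = 2 * 2 ^ m + 1 := by rw [hM]; push_cast; rw [pow_succ]; ring
  have hM0 : (0 : ℝ) < M := by rw [hMr]; positivity
  have hMm : (2 : ℝ) ^ m ≤ M := by rw [hMr]; linarith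
  -- the grid
  have hY : ∀ w a, (s w a + 2 ^ m).toNat < M := by
    intro w a
    have h1 := abs_le.1 (hs w a)
    have h2 : 0 ≤ s w a + 2 ^ m := by linarith [h1.1]
    have h3 : ((s w a + 2 ^ m).toNat : ℤ) < M := by
      rw [Int.toNat_of_nonneg h2, hM]
      push_cast
      rw [pow_succ]
      linarith [h1.2]
    exact_mod_cast h3
  set Y : W → Fin N → Fin M := fun w a => ⟨(s w a + 2 ^ m).toNat, hY w a⟩ with hYd
  have hYr : ∀ w a, (((Y w a : ℕ) : ℝ)) = s w a + 2 ^ m := by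
    intro w a
    have h1 := abs_le.1 (hs w a)
    have h2 : 0 ≤ s w a + 2 ^ m := by linarith [h1.1]
    have h3 : (((s w a + 2 ^ m).toNat : ℤ) : ℝ) = ((s w a + 2 ^ m : ℤ) : ℝ) := by
      rw [Int.toNat_of_nonneg h2]
    push_cast at h3
    exact h3
  have hHY : H μ Y = H μ s := by
    refine H_congr hμ.nonneg ?_ ?_
    · intro w w' _ _ h
      funext a
      simp only [hYd]
      apply Fin.ext
      show (s w a + 2 ^ m).toNat = (s w' a + 2 ^ m).toNat
      rw [congrFun h a]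
    · intro w w' _ _ h
      funext a
      have h1 : ((Y w a : ℕ) : ℝ) = ((Y w' a : ℕ) : ℝ) := by rw [congrFun h a]
      rw [hYr, hYr] at h1
      have h2 : (s w a : ℝ) = s w' a := by linarith
      exact_mod_cast h2
  set P : Pl N := RIN.scale (Pool.Agent.H36.KBX.shift (fun _ => -1) R) ((M : ℝ) / 2 ^ m) with hP
  have hPe : ∀ u : Fin N → ℝ, MvPolynomial.eval u P =
      MvPolynomial.eval (fun a => (M : ℝ) / 2 ^ m * u a - 1) R := by
    intro u
    rw [hP, RIN.eval_scale, Pool.Agent.H36.KBX.eval_shift]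
    rfl
  have hPd : ∀ i, P.degreeOf i ≤ j := by
    intro i
    refine (RIN.degreeOf_scale _ _ i).trans ?_
    exact (MvPolynomial.degreeOf_le_totalDegree _ i).trans
      ((Pool.Agent.H36.KBX.totalDegree_shift _ _).trans hR)
  -- the maximum
  have hcomp : IsCompact (Set.pi Set.univ fun _ : Fin N => Set.Icc (0 : ℝ) 1) :=
    isCompact_univ_pi fun _ => isCompact_Icc
  have hne : (Set.pi Set.univ fun _ : Fin N => Set.Icc (0 : ℝ) 1).Nonempty :=
    ⟨fun _ => 0, fun _ _ => ⟨le_rfl, zero_le_one⟩⟩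
  obtain ⟨u₀, hu₀, hmax⟩ := hcomp.exists_isMaxOn hne
    (f := fun u => |MvPolynomial.eval u P|) (by
      refine Continuous.continuousOn ?_
      exact (MvPolynomial.continuous_eval P).abs)
  obtain ⟨S, hS⟩ : ∃ S, S = |MvPolynomial.eval u₀ P| := ⟨_, rfl⟩
  have hSle : ∀ u : Fin N → ℝ, (∀ a, u a ∈ Set.Icc (0 : ℝ) 1) → |MvPolynomial.eval u P| ≤ S := by
    intro u hu
    rw [hS]
    exact hmax (fun a _ => hu a)
  have hSA : A ≤ S := by
    refine hξ2.trans ?_
    have h1 := hSle (fun a => (ξ a + 1) * 2 ^ m / M) (fun a => by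
      have h2 := abs_le.1 (hξ1 a)
      constructor
      · have : 0 ≤ ξ a + 1 := by linarith [h2.1]
        positivity
      · rw [div_le_one hM0, hMr]
        nlinarith [h2.2])
    rw [hPe] at h1
    have h3 : (fun a => (M : ℝ) / 2 ^ m * ((ξ a + 1) * 2 ^ m / M) - 1) = ξ := by
      funext a
      field_simp
      ring
    rwa [h3] at h1
  have hS0 : 0 < S := lt_of_lt_of_le hA hSA
  have hmain := hC W μ M Y P S hμ hPd hS0 ⟨u₀, fun a => hu₀ a (Set.mem_univ a), hS.le⟩
  rw [hHY, pow_one] at hmain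
  have hYM : ∀ w, MvPolynomial.eval (fun i => ((Y w i : ℕ) : ℝ) / M) P =
      MvPolynomial.eval (fun a => (s w a : ℝ) / 2 ^ m) R := by
    intro w
    rw [hPe]
    congr 2
    funext a
    rw [hYr]
    field_simp
    ring
  have hYle : ∀ w, |MvPolynomial.eval (fun i => ((Y w i : ℕ) : ℝ) / M) P| ≤ S := by
    intro w
    refine hSle _ fun a => ⟨by positivity, ?_⟩
    rw [div_le_one hM0]
    exact_mod_cast (Y w a).2.le
  set Bad : W → Prop := fun w => |MvPolynomial.eval (fun a => (s w a : ℝ) / 2 ^ m) R| ≤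
      A * Real.exp (-(t * U)) with hBad
  have hU0' : (0 : ℝ) < U := by exact_mod_cast hU0
  have htU : Real.exp (t * U) ≤ M := by
    refine le_trans ?_ hMm
    have h1 : (2 : ℝ) ^ U ≤ 2 ^ m := pow_le_pow_right₀ (by norm_num) hU
    refine le_trans ?_ h1
    rw [← Real.rpow_natCast, Real.rpow_def_of_pos (by norm_num)]
    refine Real.exp_le_exp.2 (mul_le_mul_of_nonneg_right ?_ hU0'.le)
    linarith [Real.log_two_gt_d9]
  have hle : Ex μ (fun ω => Real.log (max
      |MvPolynomial.eval (fun i => ((Y ω i : ℕ) : ℝ) / M) P| (S / (M : ℝ)))) ≤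
      Real.log S - t * U * Pb μ Bad := by
    have h1 : Ex μ (fun ω => Real.log (max
        |MvPolynomial.eval (fun i => ((Y ω i : ℕ) : ℝ) / M) P| (S / (M : ℝ)))) ≤
        Ex μ (fun ω => Real.log S - t * U * (if Bad ω then 1 else 0)) := by
      refine Ex_mono hμ.nonneg fun w _ => ?_
      have hpos : 0 < S / (M : ℝ) := by positivity
      have hmx : 0 < max |MvPolynomial.eval (fun i => ((Y w i : ℕ) : ℝ) / M) P| (S / (M : ℝ)) :=
        lt_of_lt_of_le hpos (le_max_right _ _)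
      split_ifs with hb
      · rw [mul_one]
        have h2 : max |MvPolynomial.eval (fun i => ((Y w i : ℕ) : ℝ) / M) P| (S / (M : ℝ)) ≤
            S * Real.exp (-(t * U)) := by
          refine max_le ?_ ?_
          · rw [hYM]
            exact hb.trans (mul_le_mul_of_nonneg_right hSA (Real.exp_pos _).le)
          · rw [Real.exp_neg, ← div_eq_mul_inv]
            exact div_le_div_of_nonneg_left hS0.le (Real.exp_pos _) htU
        refine (Real.log_le_log hmx h2).trans (le_of_eq ?_)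
        rw [Real.log_mul hS0.ne' (Real.exp_pos _).ne', Real.log_exp]
        ring
      · rw [mul_zero, sub_zero]
        refine Real.log_le_log hmx (max_le (hYle w) ?_)
        refine div_le_self hS0.le ?_
        exact_mod_cast (show 1 ≤ M by rw [hM]; omega)
    have h2 : Ex μ (fun ω => if Bad ω then (1 : ℝ) else 0) = Pb μ Bad := by
      unfold Ex Pb
      refine Finset.sum_congr rfl fun w _ => ?_
      show μ w * (if Bad w then (1 : ℝ) else 0) = _
      by_cases hb : Bad w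
      · rw [if_pos hb, if_pos hb, mul_one]
      · rw [if_neg hb, if_neg hb, mul_zero]
    refine h1.trans (le_of_eq ?_)
    rw [Ex_sub, Ex_const hμ.sum_one, Ex_smul, h2]
  have hlogM : (N : ℝ) * Real.log M ≤ N * (m * Real.log 2) + 2 * N := by
    have h1 : (M : ℝ) ≤ 4 * 2 ^ m := by
      rw [hMr]
      have : (1 : ℝ) ≤ 2 ^ m := one_le_pow₀ (by norm_num)
      linarith
    have h2 : Real.log M ≤ Real.log 4 + m * Real.log 2 := by
      refine (Real.log_le_log hM0 h1).trans (le_of_eq ?_)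
      rw [Real.log_mul (by norm_num) (by positivity), Real.log_pow]
    have h3 : Real.log 4 ≤ 2 := by
      have : (4 : ℝ) = 2 ^ 2 := by norm_num
      rw [this, Real.log_pow]
      push_cast
      linarith [Real.log_two_lt_d9]
    have h4 : (0 : ℝ) ≤ N := Nat.cast_nonneg N
    nlinarith
  rw [le_div_iff₀ (mul_pos ht hU0')]
  have h5 : C * ((N : ℝ) * Real.log M - H μ s + 1) ≤
      C * ((N * (m * Real.log 2) - H μ s) + 2 * N + 1) := by
    refine mul_le_mul_of_nonneg_left ?_ hC0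
    linarith
  have h6 := hmain.trans hle
  linarith

/-- The number of grid points where a polynomial in one variable is small and its derivative is
not small. -/
theorem count_pts (j m : ℕ) (P : Polynomial ℝ) (hP : P.natDegree ≤ j) (F : Finset ℤ) (ε a : ℝ)
    (ha : 0 < a) (hε : 0 ≤ ε) (h : ∀ z ∈ F, |P.eval ((z : ℝ) / 2 ^ m)| ≤ ε ∧
      a ≤ |P.derivative.eval ((z : ℝ) / 2 ^ m)|) :
    (F.card : ℝ) ≤ 2 * j * (2 * (2 ^ m * (2 * ε / a)) + 1) := by
  classical
  obtain ⟨G, hG, hG2⟩ := in4_thm j P ε a hP hε ha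
  have h2m : (0 : ℝ) < 2 ^ m := by positivity
  set r : ℝ := 2 ^ m * (2 * ε / a) with hr
  have hr0 : 0 ≤ r := by positivity
  have h1 : F ⊆ G.biUnion fun c => Finset.Icc ⌈2 ^ m * c - r⌉ ⌊2 ^ m * c + r⌋ := by
    intro z hz
    obtain ⟨c, hc, hc2⟩ := hG2 _ (h z hz).1 (h z hz).2
    refine Finset.mem_biUnion.2 ⟨c, hc, Finset.mem_Icc.2 ⟨?_, ?_⟩⟩
    · rw [Int.ceil_le]
      have h3 := (abs_le.1 hc2).1
      have h4 : 2 ^ m * c - r ≤ 2 ^ m * ((z : ℝ) / 2 ^ m) := by
        rw [hr, ← mul_sub]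
        exact mul_le_mul_of_nonneg_left (by linarith) h2m.le
      rwa [mul_div_cancel₀ _ h2m.ne'] at h4
    · rw [Int.le_floor]
      have h3 := (abs_le.1 hc2).2
      have h4 : 2 ^ m * ((z : ℝ) / 2 ^ m) ≤ 2 ^ m * c + r := by
        rw [hr, ← mul_add]
        exact mul_le_mul_of_nonneg_left (by linarith) h2m.le
      rwa [mul_div_cancel₀ _ h2m.ne'] at h4
  have h2 : (F.card : ℝ) ≤ ∑ c ∈ G, (2 * r + 1) := by
    have h0 : (F.card : ℝ) ≤ ((∑ c ∈ G, (Finset.Icc ⌈2 ^ m * c - r⌉ ⌊2 ^ m * c + r⌋).card : ℕ) : ℝ) :=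
      Nat.cast_le.2 ((Finset.card_le_card h1).trans Finset.card_biUnion_le)
    refine h0.trans ?_
    rw [Nat.cast_sum]
    refine Finset.sum_le_sum fun c _ => ?_
    rw [Int.card_Icc]
    rcases le_or_gt 0 (⌊2 ^ m * c + r⌋ + 1 - ⌈2 ^ m * c - r⌉) with h3 | h3
    · have h4 : ((⌊2 ^ m * c + r⌋ + 1 - ⌈2 ^ m * c - r⌉).toNat : ℝ) =
          (⌊2 ^ m * c + r⌋ + 1 - ⌈2 ^ m * c - r⌉ : ℤ) := by
        exact_mod_cast Int.toNat_of_nonneg h3
      rw [h4]
      push_cast
      have h5 := Int.floor_le (2 ^ m * c + r)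
      have h6 := Int.le_ceil (2 ^ m * c - r)
      linarith
    · rw [Int.toNat_of_nonpos h3.le]
      push_cast
      linarith
  refine h2.trans ?_
  rw [Finset.sum_const, nsmul_eq_mul]
  refine mul_le_mul_of_nonneg_right ?_ (by linarith)
  exact_mod_cast hG

end Pool.Agent.H34.BFL
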