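import Pool.Agent.H34.BFL.Ker

/-!
# One coordinate is almost uniform given the end point and the other coordinates
-/

set_option autoImplicit false

namespace Pool.Agent.H34.BFL

open Finset Real
open Pool.Agent.H49.Ent Pool.Agent.H32.Dense Pool.STK Pool.BFL

/-- The other coordinates: the first ones without `c`. -/
def so {n N : ℕ} (c : Fin N) {W : Type} (s : W → Fin N → ℤ) (w : W) (a : Fin N) : ℤ :=
  if a.val < N - n ∧ a ≠ c then s w a else 0

theorem H_vec_le {d : ℕ} {W : Type} [Fintype W] {μ : W → ℝ} (hμ : IsLaw μ) (X : W → Fin d → ℤ)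
    (L : ℝ) (hX : ∀ ω ω', 0 < μ ω → 0 < μ ω' → ∀ k, |((X ω k - X ω' k : ℤ) : ℝ)| ≤ L) :
    H μ X ≤ d * Real.log (2 * L + 1) := by
  have h1 := CH_le_vec hμ.nonneg hμ.sum_one X (fun _ => ()) (fun _ => L)
    (fun ω ω' a b _ k => hX ω ω' a b k)
  rw [Ex_const hμ.sum_one] at h1
  have h2 : H μ X ≤ H μ (fun ω => (X ω, ())) :=
    H_mono hμ.nonneg (fun ω ω' _ _ h => (Prod.ext_iff.1 h).1)
  have h3 : H μ (fun _ : W => ()) = 0 := H_const hμ.sum_one ()
  unfold CH at h1
  rw [h3] at h1
  linarith

theorem H_so_le {n N m : ℕ} (c : Fin N) (hc : c.val < N - n) {W : Type} [Fintype W] {μ : W → ℝ}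
    (hμ : IsLaw μ) (s : W → Fin N → ℤ) (hs : ∀ w a, |s w a| ≤ 2 ^ m) :
    H μ (so (n := n) c s) ≤ ((N : ℝ) - n - 1) * (m * Real.log 2) + 2 * N := by
  classical
  set I : Finset (Fin N) := univ.filter fun a : Fin N => a.val < N - n ∧ a ≠ c with hI
  set F : Finset (Fin N → ℤ) := Fintype.piFinset fun a =>
    if a ∈ I then Finset.Icc (-2 ^ m) (2 ^ m) else {0} with hF
  have h1 := H_le_log_card hμ.nonneg hμ.sum_one (so (n := n) c s) F (fun w _ => by
    rw [hF, Fintype.mem_piFinset]
    intro a
    by_cases ha : a.val < N - n ∧ a ≠ c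
    · have hI' : a ∈ I := Finset.mem_filter.2 ⟨Finset.mem_univ a, ha⟩
      rw [if_pos hI']
      unfold so
      rw [if_pos ha, Finset.mem_Icc]
      exact abs_le.1 (hs w a)
    · have hI' : a ∉ I := fun h => ha (Finset.mem_filter.1 h).2
      rw [if_neg hI']
      unfold so
      rw [if_neg ha]
      exact Finset.mem_singleton_self 0)
  refine h1.trans ?_
  have hcard : ((F.card : ℕ) : ℝ) = (2 * 2 ^ m + 1 : ℝ) ^ I.card := by
    rw [hF, Fintype.card_piFinset]
    have h2 : ∀ a : Fin N, (if a ∈ I then Finset.Icc (-2 ^ m : ℤ) (2 ^ m) else {0}).card =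
        if a ∈ I then 2 * 2 ^ m + 1 else 1 := by
      intro a
      split_ifs
      · rw [Int.card_Icc]
        have h3 : (2 ^ m + 1 - -2 ^ m : ℤ) = ((2 * 2 ^ m + 1 : ℕ) : ℤ) := by push_cast; ring
        rw [h3, Int.toNat_natCast]
      · rw [Finset.card_singleton]
    rw [Finset.prod_congr rfl fun a _ => h2 a, Finset.prod_ite_mem, Finset.univ_inter,
      Finset.prod_const]
    push_cast
    rfl
  have hIc : (I.card : ℝ) = (N : ℝ) - n - 1 := by
    have h2 : I = (univ.filter fun a : Fin N => a.val < N - n).erase c := by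
      ext a
      rw [hI, Finset.mem_filter, Finset.mem_erase, Finset.mem_filter]
      tauto
    have h3 : (univ.filter fun a : Fin N => a.val < N - n).card = N - n := by
      have h4 : (univ.filter fun a : Fin N => a.val < N - n) =
          (univ.filter fun a : Fin N => a.val < N - n) := rfl
      have h5 := Fin.card_filter_val_lt (n := N) (m := N - n)
      rw [h5]
      exact min_eq_right (Nat.sub_le _ _)
    have hcm : c ∈ univ.filter fun a : Fin N => a.val < N - n :=
      Finset.mem_filter.2 ⟨Finset.mem_univ c, hc⟩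
    rw [h2, Finset.card_erase_of_mem hcm, h3]
    have h6 : 1 ≤ N - n := by omega
    have h7 : n ≤ N := by omega
    rw [Nat.cast_sub h6, Nat.cast_sub h7]
    push_cast
    ring
  rw [hcard, Real.log_pow, hIc]
  have h8 : Real.log (2 * 2 ^ m + 1) ≤ 2 + m * Real.log 2 := by
    have h9 : (2 * 2 ^ m + 1 : ℝ) ≤ 4 * 2 ^ m := by
      have : (1 : ℝ) ≤ 2 ^ m := one_le_pow₀ (by norm_num)
      linarith
    refine (Real.log_le_log (by positivity) h9).trans ?_
    rw [Real.log_mul (by norm_num) (by positivity), Real.log_pow]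
    have : (4 : ℝ) = 2 ^ 2 := by norm_num
    rw [this, Real.log_pow]
    push_cast
    linarith [Real.log_two_lt_d9]
  have h10 : (0 : ℝ) ≤ (N : ℝ) - n - 1 := by
    rw [← hIc]
    positivity
  have h11 : (N : ℝ) - n - 1 ≤ N := by
    have : (0 : ℝ) ≤ n := Nat.cast_nonneg n
    linarith
  calc ((N : ℝ) - n - 1) * Real.log (2 * 2 ^ m + 1) ≤ ((N : ℝ) - n - 1) * (2 + m * Real.log 2) :=
        mul_le_mul_of_nonneg_left h8 h10
    _ = ((N : ℝ) - n - 1) * (m * Real.log 2) + 2 * ((N : ℝ) - n - 1) := by ring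
    _ ≤ _ := by linarith

/-- The coordinate `c` is almost uniform given the end point and the other coordinates. -/
theorem free_coord {n N m : ℕ} (hN : n ≤ N) {C₀ κ D : ℝ} (hC₀ : 1 ≤ C₀) (hκ : 0 < κ)
    {W : Type} [Fintype W] {μ : W → ℝ} (hμ : IsLaw μ) (s : W → Fin N → ℤ)
    (E : Fin N → Fin n → ℝ) (y₀ : Fin n → ℝ) (Yc : W → Fin n → ℤ)
    (hs : ∀ w a, |s w a| ≤ 2 ^ m) (hH : N * (m * Real.log 2) - D ≤ H μ s)
    (hE : ∀ a i, |E a i| ≤ C₀) (hd : κ ≤ |ldet hN E|)
    (hY : ∀ w, 0 < μ w → ∀ i, |(Yc w i : ℝ) - y₀ i - ∑ a, (s w a : ℝ) * E a i| ≤ C₀)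
    (c : Fin N) (hc : c.val < N - n) :
    m * Real.log 2 - D - N * Real.log (4 * (n * (n.factorial * C₀ ^ n) / κ * C₀) + 1) -
      n * Real.log (4 * N * C₀ + 4 * C₀ + 1) - 2 * N ≤
      CH μ (fun w => s w c) (fun w => (Yc w, so (n := n) c s w)) := by
  classical
  have hp := hμ.nonneg
  have hd0 : ldet hN E ≠ 0 := fun h => by
    rw [h, abs_zero] at hd
    linarith
  have hNn : (0 : ℝ) ≤ N := Nat.cast_nonneg N
  -- the lines have the same last coordinates up to few choices
  have h1 : CH μ s (fun w => (s w c, (Yc w, so (n := n) c s w))) ≤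
      N * Real.log (4 * (n * (n.factorial * C₀ ^ n) / κ * C₀) + 1) := by
    have h2 := CH_le_vec hp hμ.sum_one s (fun w => (s w c, (Yc w, so (n := n) c s w)))
      (fun _ => 2 * (n * (n.factorial * C₀ ^ n) / κ * C₀)) (by
        intro w w' hw hw' h k
        have e1 := Prod.ext_iff.1 h
        have e2 := Prod.ext_iff.1 e1.2
        simp only at e1 e2
        set z : Fin N → ℝ := fun a => (s w a : ℝ) - s w' a with hz
        have hz0 : ∀ a : Fin N, a.val < N - n → z a = 0 := by
          intro a ha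
          by_cases hac : a = c
          · subst hac
            simp only [hz]
            rw [e1.1, sub_self]
          · have h3 := congrFun e2.2 a
            unfold so at h3
            rw [if_pos ⟨ha, hac⟩, if_pos ⟨ha, hac⟩] at h3
            simp only [hz]
            rw [h3, sub_self]
        have hb0 : 0 ≤ 2 * (n * (n.factorial * C₀ ^ n) / κ * C₀) := by positivity
        push_cast
        change |z k| ≤ _
        by_cases hk : k.val < N - n
        · rw [hz0 k hk, abs_zero]
          exact hb0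
        · have h4 := co_sum hN E hd0 z ⟨k.val - (N - n), by have := k.2; omega⟩
          have h5 : lst hN ⟨k.val - (N - n), by have := k.2; omega⟩ = k := by
            apply Fin.ext
            show N - n + (k.val - (N - n)) = k.val
            omega
          rw [h5, Finset.sum_eq_zero (fun a ha => by
            rw [hz0 a (Finset.mem_filter.1 ha).2, zero_mul]), zero_add] at h4
          rw [← h4]
          have h6 := co_le hN E hC₀ hκ hE hd (fun i => ∑ a, z a * E a i) (δ := 2 * C₀) (by
            intro i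
            have a1 := hY w hw i
            have a2 := hY w' hw' i
            have a3 : ∑ a, z a * E a i = (∑ a, (s w a : ℝ) * E a i) - ∑ a, (s w' a : ℝ) * E a i := by
              simp only [hz, sub_mul, Finset.sum_sub_distrib]
            rw [a3]
            rw [e2.1] at a1
            rw [abs_le] at a1 a2 ⊢
            constructor <;> linarith [a1.1, a1.2, a2.1, a2.2])
            ⟨k.val - (N - n), by have := k.2; omega⟩
          refine h6.trans (le_of_eq ?_)
          ring)
    rw [Ex_const hμ.sum_one] at h2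
    refine h2.trans (le_of_eq ?_)
    congr 2
    ring
  have h2 : H μ Yc ≤ n * (m * Real.log 2) + n * Real.log (4 * N * C₀ + 4 * C₀ + 1) := by
    have h3 := H_vec_le hμ Yc (2 * N * 2 ^ m * C₀ + 2 * C₀) (by
      intro w w' hw hw' i
      have a1 := hY w hw i
      have a2 := hY w' hw' i
      have a3 : ∀ w, |∑ a, (s w a : ℝ) * E a i| ≤ N * (2 ^ m * C₀) := by
        intro w
        refine (Finset.abs_sum_le_sum_abs _ _).trans ?_
        have h4 : ∀ a ∈ (Finset.univ : Finset (Fin N)), |(s w a : ℝ) * E a i| ≤ 2 ^ m * C₀ := by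
          intro a _
          rw [abs_mul]
          refine mul_le_mul ?_ (hE a i) (abs_nonneg _) (by positivity)
          have := hs w a
          exact_mod_cast this
        refine (Finset.sum_le_sum h4).trans ?_
        rw [Finset.sum_const, Finset.card_univ, Fintype.card_fin, nsmul_eq_mul]
      have a4 := a3 w
      have a5 := a3 w'
      push_cast
      rw [abs_le] at a1 a2 a4 a5 ⊢
      constructor <;> nlinarith [a1.1, a1.2, a2.1, a2.2, a4.1, a4.2, a5.1, a5.2])
    refine h3.trans ?_
    rw [← mul_add]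
    refine mul_le_mul_of_nonneg_left ?_ (Nat.cast_nonneg n)
    have h4 : 2 * (2 * N * 2 ^ m * C₀ + 2 * C₀) + 1 ≤ 2 ^ m * (4 * N * C₀ + 4 * C₀ + 1) := by
      have : (1 : ℝ) ≤ 2 ^ m := one_le_pow₀ (by norm_num)
      nlinarith
    refine (Real.log_le_log (by positivity) h4).trans (le_of_eq ?_)
    rw [Real.log_mul (by positivity) (by positivity), Real.log_pow]
  have h3 := H_so_le (n := n) c hc hμ s hs
  have h4 : H μ (fun w => (Yc w, so (n := n) c s w)) ≤ H μ Yc + H μ (so (n := n) c s) :=
    subadd hp hμ.sum_one (fun ω ω' _ _ h => h)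
  have h5 : H μ s ≤ H μ (fun w => (s w, (s w c, (Yc w, so (n := n) c s w)))) :=
    H_mono hp (fun ω ω' _ _ h => (Prod.ext_iff.1 h).1)
  unfold CH at h1 ⊢
  have h6 : n * (m * Real.log 2) + ((N : ℝ) - n - 1) * (m * Real.log 2) =
      N * (m * Real.log 2) - m * Real.log 2 := by ring
  linarith

end Pool.Agent.H34.BFL
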