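import Pool.Agent.H34.BFL.Cnt
import Pool.Agent.H34.BFL.Fre

/-!
# Row FIB of the board kbfl: the count in a fibre
-/

set_option autoImplicit false

namespace Pool.Agent.H34.BFL

open Finset Real
open Pool.Agent.H49.Ent Pool.Agent.H32.Dense Pool.STK Pool.KAL Pool.BFL

theorem pt_congr {n N : ℕ} (hN : n ≤ N) (E : Fin N → Fin n → ℝ) (u u' : Fin N → ℝ)
    (v : Fin n → ℝ) (h : ∀ a : Fin N, a.val < N - n → u a = u' a) (a : Fin N) :
    pt hN E u v a = pt hN E u' v a := by
  unfold pt
  split_ifs with h1
  · exact h a h1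
  · congr 1
    refine Finset.sum_congr rfl fun b hb => ?_
    rw [h b (Finset.mem_filter.1 hb).2]

/-- The points of a fibre are near a line. -/
theorem near_line {n N m : ℕ} (hN : n ≤ N) (E : Fin N → Fin n → ℝ) {C₀ κ : ℝ} (hC₀ : 1 ≤ C₀)
    (hκ : 0 < κ) (hE : ∀ a i, |E a i| ≤ C₀) (hd : κ ≤ |ldet hN E|) (c : Fin N)
    (hc : c.val < N - n) (s : Fin N → ℤ) (y : Fin n → ℝ)
    (hy : ∀ i, |y i - ∑ a, (s a : ℝ) * E a i| ≤ C₀) (a : Fin N) :
    |(s a : ℝ) / 2 ^ m - (pt hN E (fun a => ((if a.val < N - n ∧ a ≠ c then s a else 0 : ℤ) : ℝ) /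
      2 ^ m) (fun i => y i / 2 ^ m) a + (s c : ℝ) / 2 ^ m * kv hN E c a)| ≤
      n * (n.factorial * C₀ ^ n) / κ * (C₀ / 2 ^ m) := by
  have hd0 : ldet hN E ≠ 0 := fun h => by
    rw [h, abs_zero] at hd
    linarith
  have h2m : (0 : ℝ) < 2 ^ m := by positivity
  set z : Fin N → ℝ := fun a => (s a : ℝ) / 2 ^ m with hz
  have h1 := congrFun (pt_eq hN E hd0 z) a
  have h2 := pt_line hN E c hc z (fun i => y i / 2 ^ m) a
  have h3 := pt_congr hN E (Function.update z c 0)
    (fun a => ((if a.val < N - n ∧ a ≠ c then s a else 0 : ℤ) : ℝ) / 2 ^ m)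
    (fun i => y i / 2 ^ m) (by
      intro b hb
      by_cases hbc : b = c
      · subst hbc
        rw [Function.update_self, if_neg (fun h => h.2 rfl)]
        simp
      · rw [Function.update_of_ne hbc, if_pos ⟨hb, hbc⟩]) a
  have h4 := pt_end hN E hC₀ hκ hE hd z (fun i => ∑ a, z a * E a i) (fun i => y i / 2 ^ m)
    (δ := C₀ / 2 ^ m) (by positivity) (by
      intro i
      have h5 : ∑ a, z a * E a i - y i / 2 ^ m = -(y i - ∑ a, (s a : ℝ) * E a i) / 2 ^ m := by
        rw [neg_sub, sub_div, Finset.sum_div]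
        congr 1
        refine Finset.sum_congr rfl fun b _ => ?_
        simp only [hz]
        ring
      rw [h5, abs_div, abs_neg, abs_of_pos h2m]
      exact div_le_div_of_nonneg_right (hy i) h2m.le) a
  rw [h1, h2, h3] at h4
  exact h4

theorem fib_thm : FIBStmt := by
  classical
  intro n N j C₀ τ₀ hN hC₀ hτ₀
  obtain ⟨CR, hCR0, hCR⟩ := small_prob N j
  have hN0 : (0 : ℝ) ≤ N := Nat.cast_nonneg N
  obtain ⟨t, ht⟩ : ∃ t, t = min (τ₀ / 4) (1 / 2) := ⟨_, rfl⟩
  have ht0 : 0 < t := by rw [ht]; exact lt_min (by linarith) (by norm_num)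
  have ht1 : t ≤ τ₀ / 4 := by rw [ht]; exact min_le_left _ _
  have ht2 : t ≤ 1 / 2 := by rw [ht]; exact min_le_right _ _
  obtain ⟨c₁, hc₁⟩ : ∃ c₁ : ℝ, c₁ = n * (n.factorial * C₀ ^ n) * C₀ := ⟨_, rfl⟩
  have hc₁0 : 0 ≤ c₁ := by rw [hc₁]; positivity
  obtain ⟨B, hB⟩ : ∃ B : ℝ, B = ((Pool.Agent.H36.KBX.bx N j).card : ℝ) := ⟨_, rfl⟩
  have hB0 : 0 ≤ B := by rw [hB]; positivity
  obtain ⟨c₃, hc₃⟩ : ∃ c₃ : ℝ, c₃ = N * ((1 + c₁) * (j + 1)) := ⟨_, rfl⟩
  have hc₃0 : 0 ≤ c₃ := by rw [hc₃]; positivity
  obtain ⟨c₄, hc₄⟩ : ∃ c₄ : ℝ, c₄ = N * (c₁ * (B * ((j + 1) * 2 ^ (N * j)))) := ⟨_, rfl⟩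
  have hc₄0 : 0 ≤ c₄ := by rw [hc₄]; positivity
  obtain ⟨k₁, hk₁⟩ : ∃ k₁ : ℝ, k₁ = N * Real.log (4 * c₁ + 1) +
    n * Real.log (4 * N * C₀ + 4 * C₀ + 1) + 2 * N := ⟨_, rfl⟩
  obtain ⟨c₆, hc₆⟩ : ∃ c₆ : ℝ, c₆ = 2 * j * (16 * N * (c₄ + 2) + 1) + 1 := ⟨_, rfl⟩
  have hc₆1 : 1 ≤ c₆ := by
    have : 0 ≤ 2 * (j : ℝ) * (16 * N * (c₄ + 2) + 1) := by positivity
    rw [hc₆]; linarith
  obtain ⟨τ₁, hτ₁⟩ : ∃ τ₁ : ℝ, τ₁ = min (min (τ₀ / (24 * (N + 3)))
    (τ₀ * t / (8 * ((C₀ + 2) * (CR + 1))))) (1 / 4) := ⟨_, rfl⟩
  have hτ₁0 : 0 < τ₁ := by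
    rw [hτ₁]
    refine lt_min (lt_min ?_ ?_) (by norm_num)
    · positivity
    · positivity
  have hτ₁a : (N + 3) * τ₁ ≤ τ₀ / 24 := by
    have h1 : τ₁ ≤ τ₀ / (24 * (N + 3)) := by
      rw [hτ₁]; exact (min_le_left _ _).trans (min_le_left _ _)
    calc (N + 3) * τ₁ ≤ (N + 3) * (τ₀ / (24 * (N + 3))) :=
          mul_le_mul_of_nonneg_left h1 (by positivity)
      _ = τ₀ / 24 := by field_simp
  exact by
   have hτ₁b : (C₀ + 2) * CR * τ₁ / t ≤ τ₀ / 8 := by
     have h1 : τ₁ ≤ τ₀ * t / (8 * ((C₀ + 2) * (CR + 1))) := by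
       rw [hτ₁]; exact (min_le_left _ _).trans (min_le_right _ _)
     have h2 : (C₀ + 2) * CR * τ₁ ≤ (C₀ + 2) * (CR + 1) * τ₁ := by
       refine mul_le_mul_of_nonneg_right ?_ hτ₁0.le
       exact mul_le_mul_of_nonneg_left (by linarith) (by linarith)
     have h3 : (C₀ + 2) * (CR + 1) * τ₁ ≤ τ₀ * t / 8 := by
       calc (C₀ + 2) * (CR + 1) * τ₁ ≤
           (C₀ + 2) * (CR + 1) * (τ₀ * t / (8 * ((C₀ + 2) * (CR + 1)))) :=
             mul_le_mul_of_nonneg_left h1 (by positivity)
         _ = τ₀ * t / 8 := by field_simp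
     rw [div_le_iff₀ ht0]
     linarith
   have hτ₁c : τ₁ ≤ 1 / 4 := by rw [hτ₁]; exact min_le_right _ _
   have hτ₁d : 3 * τ₁ ≤ τ₀ / 24 := by
     have : 0 ≤ N * τ₁ := by positivity
     linarith
   obtain ⟨k₃, hk₃⟩ : ∃ k₃ : ℝ, k₃ = (C₀ + 2) * CR * (2 * N + 1) / t + k₁ + Real.log c₆ + 1 :=
     ⟨_, rfl⟩
   refine ⟨τ₁, hτ₁0, ⌈c₁ / (2 / 5)⌉₊ + ⌈4 * N * (c₄ * c₃) / (τ₀ / 2)⌉₊ + ⌈k₃ / (τ₀ / 4)⌉₊ + 1, ?_⟩
   intro U m hU hUm hmC W _ μ s E Q y₀ Yc h x hμ hs hH hE hd hQ hQc hYc hh hx hKV
   have hp := hμ.nonneg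
   obtain ⟨u, hu⟩ : ∃ u : ℝ, u = (U : ℝ) := ⟨_, rfl⟩
   rw [← hu] at hH hd hQc hh hmC ⊢
   have hu1 : 1 ≤ u := by
     rw [hu]
     exact_mod_cast (show 1 ≤ U by omega)
   have hu0 : 0 < u := by linarith
   have hbig : ∀ A b : ℝ, 0 < b → ⌈A / b⌉₊ ≤ U → A ≤ b * u := by
     intro A b hb hA
     have h1 : A / b ≤ u := by
       rw [hu]
       exact (Nat.le_ceil _).trans (by exact_mod_cast hA)
     rw [div_le_iff₀ hb] at h1
     linarith
   exact by
    have hU1 : c₁ ≤ 2 / 5 * u := hbig _ _ (by norm_num) (by omega)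
    have hU2 : 4 * N * (c₄ * c₃) ≤ τ₀ / 2 * u := hbig _ _ (by linarith) (by omega)
    have hU3 : k₃ ≤ τ₀ / 4 * u := hbig _ _ (by linarith) (by omega)
    -- the trivial case
    rcases le_or_gt (u * Real.log 2 - x - τ₀ * u) 0 with hcase | hcase
    · exact hcase.trans (CH_nonneg hp _ _)
    have h2m : (0 : ℝ) < 2 ^ m := by positivity
    have h2U : (0 : ℝ) < 2 ^ U := by positivity
    have h2Um : (2 : ℝ) ^ U ≤ 2 ^ m := pow_le_pow_right₀ (by norm_num) hUm
    have h2Ue : (2 : ℝ) ^ U = Real.exp (u * Real.log 2) := by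
      rw [← Real.rpow_natCast, Real.rpow_def_of_pos (by norm_num), hu, mul_comm]
    obtain ⟨e, he⟩ : ∃ e : ℝ, e = Real.exp (τ₁ * u) := ⟨_, rfl⟩
    have he0 : 0 < e := by rw [he]; exact Real.exp_pos _
    have he1 : 1 ≤ e := by
      rw [he]
      exact Real.one_le_exp (by positivity)
    have hκe : Real.exp (-(τ₁ * u)) = e⁻¹ := by rw [he, Real.exp_neg]
    rw [hκe] at hd
    rw [← he] at hQc hh
    have hκ0 : 0 < e⁻¹ := inv_pos.2 he0
    have hd0 : ldet hN E ≠ 0 := fun h0 => by
      rw [h0, abs_zero] at hd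
      linarith
    have hΛ : (n : ℝ) * (n.factorial * C₀ ^ n) / e⁻¹ * C₀ = c₁ * e := by
      rw [hc₁, div_inv_eq_mul]; ring
    -- the kernel vector
    obtain ⟨c, hc, ξ, hξ1, hξ2⟩ := exists_der hN E hd0 Q (Real.exp_pos _).le hKV
    have hNpos : (0 : ℝ) < N := by
      have : 0 < N := by omega
      exact_mod_cast this
    exact by
     obtain ⟨R, hR⟩ : ∃ R : Pl N, R = dd (kv hN E c) Q := ⟨_, rfl⟩
     rw [← hR] at hξ2
     have hRdeg : R.totalDegree ≤ j := by rw [hR]; exact (dd_deg _ _).trans hQ
     have hkv : ∀ a, |kv hN E c a| ≤ (1 + c₁) * e := by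
       intro a
       refine (kv_le hN E hC₀ hκ0 hE hd c a).trans ?_
       rw [hΛ]
       linarith
     have hRc : CB R (c₃ * (e * e)) := by
       rw [hR]
       intro k
       refine (dd_CB hQ hQc hkv (by positivity) k).trans (le_of_eq ?_)
       rw [hc₃]; ring
     obtain ⟨A, hA⟩ : ∃ A : ℝ, A = Real.exp (-x) / (2 * N) := ⟨_, rfl⟩
     have hA0 : 0 < A := by rw [hA]; positivity
     rw [← hA] at hξ2
     obtain ⟨Bad, hBad⟩ : ∃ Bad : W → Prop, Bad = fun w =>
       |MvPolynomial.eval (fun a => (s w a : ℝ) / 2 ^ m) R| ≤ A * Real.exp (-(t * U)) := ⟨_, rfl⟩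
     have hPb := hCR W μ s m U R t A hμ hs hRdeg hUm (by omega) ht0 ht2 hA0 ⟨ξ, hξ1, hξ2⟩
     rw [← hBad] at hPb
     rw [← hu] at hPb hBad
     have hPb2 : (C₀ * u + 2) * Pb μ Bad ≤ (C₀ + 2) * CR * τ₁ / t * u +
         (C₀ + 2) * CR * (2 * N + 1) / t := by
       have h1 : (C₀ * u + 2) ≤ (C₀ + 2) * u := by linarith
       have h2 : 0 ≤ Pb μ Bad := by
         unfold Pb
         exact Finset.sum_nonneg fun w _ => by split_ifs; exacts [hp w, le_rfl]
       have h3 : Pb μ Bad ≤ CR * (τ₁ * u + 2 * N + 1) / (t * u) := by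
         refine hPb.trans (div_le_div_of_nonneg_right ?_ (by positivity))
         exact mul_le_mul_of_nonneg_left (by linarith) hCR0
       calc (C₀ * u + 2) * Pb μ Bad ≤ (C₀ + 2) * u * (CR * (τ₁ * u + 2 * N + 1) / (t * u)) :=
             mul_le_mul h1 h3 h2 (by positivity)
         _ = (C₀ + 2) * CR * τ₁ / t * u + (C₀ + 2) * CR * (2 * N + 1) / t := by
             field_simp
             ring
     -- the free coordinate
     exact by
      have hfree := free_coord (m := m) (D := τ₁ * u) hN hC₀ hκ0 hμ s E y₀ Yc hs hH hE hd hYc c hc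
      have hlog1 : Real.log (4 * (n * (n.factorial * C₀ ^ n) / e⁻¹ * C₀) + 1) ≤
          τ₁ * u + Real.log (4 * c₁ + 1) := by
        rw [hΛ]
        have h1 : 4 * (c₁ * e) + 1 ≤ e * (4 * c₁ + 1) := by linarith
        refine (Real.log_le_log (by positivity) h1).trans (le_of_eq ?_)
        rw [Real.log_mul he0.ne' (by positivity), he, Real.log_exp]
      have hfree2 : m * Real.log 2 - (N + 1) * (τ₁ * u) - k₁ ≤
          CH μ (fun w => s w c) (fun w => (Yc w, so (n := n) c s w)) := by
        refine le_trans ?_ hfree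
        have h1 := mul_le_mul_of_nonneg_left hlog1 hN0
        rw [hk₁]
        linarith
      -- the values
      obtain ⟨cell, hcell⟩ : ∃ cell : W → ℤ, cell = fun w => ⌊(2 : ℝ) ^ U * h w⌋ := ⟨_, rfl⟩
      rw [← hcell]
      obtain ⟨val, hval⟩ : ∃ val : W → Prop × ℤ × (Fin n → ℤ) × (Fin N → ℤ),
        val = fun w => (Bad w, cell w, Yc w, so (n := n) c s w) := ⟨_, rfl⟩
      obtain ⟨F, hF⟩ : ∃ F : Prop × ℤ × (Fin n → ℤ) × (Fin N → ℤ) → Finset ℤ,
        F = fun v => (univ.filter fun w => 0 < μ w ∧ val w = v).image fun w => s w c := ⟨_, rfl⟩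
      obtain ⟨Z, hZ⟩ : ∃ Z : ℝ, Z = 2 ^ m / 2 ^ U * (e * e) * Real.exp (x + t * u) := ⟨_, rfl⟩
      have hZ1 : 1 ≤ Z := by
        rw [hZ]
        have h1 : 1 ≤ (2 : ℝ) ^ m / 2 ^ U := by rwa [one_le_div h2U]
        have h2 : 1 ≤ e * e := one_le_mul_of_one_le_of_one_le he1 he1
        have h3 : 1 ≤ Real.exp (x + t * u) := Real.one_le_exp (by positivity)
        have h4 := one_le_mul_of_one_le_of_one_le h1 h2
        exact one_le_mul_of_one_le_of_one_le h4 h3
      have hlogZ : Real.log Z = (m * Real.log 2 - u * Real.log 2) + 2 * (τ₁ * u) + (x + t * u) := by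
        rw [hZ, Real.log_mul (by positivity) (Real.exp_pos _).ne', Real.log_mul (by positivity)
          (by positivity), Real.log_div h2m.ne' h2U.ne', Real.log_pow, Real.log_pow, Real.log_exp,
          Real.log_mul he0.ne' he0.ne', he, Real.log_exp, hu]
        ring
      -- the bound for the number of points
      exact by
       have hcount : ∀ w, 0 < μ w → Real.log ((F (val w)).card) ≤
           (if Bad w then C₀ * u + 2 else 0) + (Real.log Z + Real.log c₆) := by
         intro w₀ hw₀
         have hmem : s w₀ c ∈ F (val w₀) := by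
           rw [hF]
           exact Finset.mem_image.2 ⟨w₀, Finset.mem_filter.2 ⟨Finset.mem_univ _, hw₀, rfl⟩, rfl⟩
         have hcpos : (0 : ℝ) < (F (val w₀)).card := by
           exact_mod_cast Finset.card_pos.2 ⟨_, hmem⟩
         have hLpos : 0 ≤ Real.log Z + Real.log c₆ :=
           add_nonneg (Real.log_nonneg hZ1) (Real.log_nonneg hc₆1)
         by_cases hb : Bad w₀
         · rw [if_pos hb]
           have h1 : F (val w₀) ⊆ Finset.Icc (-2 ^ m) (2 ^ m) := by
             intro z hz
             rw [hF] at hz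
             obtain ⟨w, _, rfl⟩ := Finset.mem_image.1 hz
             exact Finset.mem_Icc.2 (abs_le.1 (hs w c))
           have h2 : ((F (val w₀)).card : ℝ) ≤ 2 * 2 ^ m + 1 := by
             have h3 := Finset.card_le_card h1
             rw [Int.card_Icc] at h3
             have h4 : (2 ^ m + 1 - -2 ^ m : ℤ) = ((2 * 2 ^ m + 1 : ℕ) : ℤ) := by push_cast; ring
             rw [h4, Int.toNat_natCast] at h3
             exact_mod_cast h3
           have h3 : Real.log ((F (val w₀)).card) ≤ 2 + m * Real.log 2 := by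
             refine (Real.log_le_log hcpos h2).trans ?_
             have h9 : (2 * 2 ^ m + 1 : ℝ) ≤ 4 * 2 ^ m := by
               have : (1 : ℝ) ≤ 2 ^ m := one_le_pow₀ (by norm_num)
               linarith
             refine (Real.log_le_log (by positivity) h9).trans ?_
             rw [Real.log_mul (by norm_num) (by positivity), Real.log_pow]
             have : (4 : ℝ) = 2 ^ 2 := by norm_num
             rw [this, Real.log_pow]
             push_cast
             linarith [Real.log_two_lt_d9]
           have h4 : m * Real.log 2 ≤ C₀ * u := by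
             have h5 : (0 : ℝ) ≤ m := Nat.cast_nonneg m
             have h6 : m * Real.log 2 ≤ m * 1 :=
               mul_le_mul_of_nonneg_left (by linarith [Real.log_two_lt_d9]) h5
             linarith
           linarith
         · rw [if_neg hb, zero_add]
           have hb' : ¬ |MvPolynomial.eval (fun a => (s w₀ a : ℝ) / 2 ^ m) R| ≤
               A * Real.exp (-(t * u)) := by
             rw [hBad] at hb
             exact hb
           -- the line
           obtain ⟨base, hbase⟩ : ∃ base : Fin N → ℝ, base = pt hN E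
             (fun a => (so (n := n) c s w₀ a : ℝ) / 2 ^ m) (fun i => ((Yc w₀ i : ℝ) - y₀ i) / 2 ^ m) :=
             ⟨_, rfl⟩
           obtain ⟨q, hq⟩ : ∃ q, q = lin base (kv hN E c) Q := ⟨_, rfl⟩
           obtain ⟨ε, hε⟩ : ∃ ε : ℝ, ε = (c₄ + 2) * (e * e) / 2 ^ U := ⟨_, rfl⟩
           have hε0 : 0 ≤ ε := by rw [hε]; positivity
           obtain ⟨al, hal⟩ : ∃ al : ℝ, al = A * Real.exp (-(t * u)) / 2 := ⟨_, rfl⟩
           have hal0 : 0 < al := by rw [hal]; positivity
           have hfin : ∀ z ∈ F (val w₀), |(q - Polynomial.C ((cell w₀ : ℝ) / 2 ^ U)).eval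
               ((z : ℝ) / 2 ^ m)| ≤ ε ∧
               al ≤ |(q - Polynomial.C ((cell w₀ : ℝ) / 2 ^ U)).derivative.eval ((z : ℝ) / 2 ^ m)| := by
             intro z hz
             rw [hF] at hz
             obtain ⟨w, hw, rfl⟩ := Finset.mem_image.1 hz
             obtain ⟨-, hw0, hwv⟩ := Finset.mem_filter.1 hw
             rw [hval] at hwv
             simp only [Prod.mk.injEq] at hwv
             obtain ⟨v1, v2, v3, v4⟩ := hwv
             have hbw : ¬ |MvPolynomial.eval (fun a => (s w a : ℝ) / 2 ^ m) R| ≤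
                 A * Real.exp (-(t * u)) := by
               intro hcon
               apply hb
               rw [← v1, hBad]
               exact hcon
             push Not at hbw
             -- the two points
             obtain ⟨zz, hzz⟩ : ∃ zz : Fin N → ℝ, zz = fun a => (s w a : ℝ) / 2 ^ m := ⟨_, rfl⟩
             obtain ⟨ll, hll⟩ : ∃ ll : Fin N → ℝ, ll = fun a => base a +
               (s w c : ℝ) / 2 ^ m * kv hN E c a := ⟨_, rfl⟩
             have hδ : ∀ a, |zz a - ll a| ≤ c₁ * e / 2 ^ m := by
               intro a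
               have h1 := near_line (m := m) hN E hC₀ hκ0 hE hd c hc (s w)
                 (fun i => (Yc w i : ℝ) - y₀ i) (hYc w hw0) a
               have h2 : (fun a => ((if a.val < N - n ∧ a ≠ c then s w a else 0 : ℤ) : ℝ) / 2 ^ m) =
                   fun a => (so (n := n) c s w₀ a : ℝ) / 2 ^ m := by
                 rw [← v4]
                 rfl
               rw [h2, v3] at h1
               have h3 : n * (n.factorial * C₀ ^ n) / e⁻¹ * (C₀ / 2 ^ m) = c₁ * e / 2 ^ m := by
                 rw [← hΛ]; ring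
               rw [h3] at h1
               rw [hzz, hll, hbase]
               exact h1
             have hδ1 : c₁ * e / 2 ^ m ≤ 1 := by
               rw [div_le_one h2m]
               refine le_trans ?_ h2Um
               have h1 : c₁ ≤ Real.exp (2 / 5 * u) := by
                 linarith [Real.add_one_le_exp (2 / 5 * u)]
               calc c₁ * e ≤ Real.exp (2 / 5 * u) * e := mul_le_mul_of_nonneg_right h1 he0.le
                 _ = Real.exp (2 / 5 * u + τ₁ * u) := by rw [he, Real.exp_add]
                 _ ≤ Real.exp (u * Real.log 2) := by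
                     refine Real.exp_le_exp.2 ?_
                     have h2 := Real.log_two_gt_d9
                     have h3 : τ₁ * u ≤ 1 / 4 * u := mul_le_mul_of_nonneg_right hτ₁c hu0.le
                     have h4 := mul_le_mul_of_nonneg_right h2.le hu0.le
                     linarith
                 _ = _ := h2Ue.symm
             have hzz1 : ∀ a, |zz a| ≤ 1 := by
               intro a
               rw [hzz]
               simp only
               rw [abs_div, abs_of_pos h2m, div_le_one h2m]
               exact_mod_cast hs w a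
             have hzz2 : ∀ a, |zz a| ≤ 2 := fun a => (hzz1 a).trans (by norm_num)
             have hll2 : ∀ a, |ll a| ≤ 2 := by
               intro a
               have h1 := hδ a
               have h2 := hzz1 a
               rw [abs_le] at h1 h2 ⊢
               constructor <;> linarith [h1.1, h1.2, h2.1, h2.2]
             have hlQ : |MvPolynomial.eval zz Q - MvPolynomial.eval ll Q| ≤ c₄ * (e * e) / 2 ^ m := by
               refine (lip hQ hQc (by norm_num : (1 : ℝ) ≤ 2) zz ll hzz2 hll2 _ hδ).trans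
                 (le_of_eq ?_)
               rw [hc₄, hB]; ring
             have hlR : |MvPolynomial.eval zz R - MvPolynomial.eval ll R| ≤
                 c₄ * c₃ * (e * e * e) / 2 ^ m := by
               refine (lip hRdeg hRc (by norm_num : (1 : ℝ) ≤ 2) zz ll hzz2 hll2 _ hδ).trans
                 (le_of_eq ?_)
               rw [hc₄, hB]; ring
             have hqe : q.eval ((s w c : ℝ) / 2 ^ m) = MvPolynomial.eval ll Q := by
               rw [hq, lin_eval, hll]
             have hqd : q.derivative.eval ((s w c : ℝ) / 2 ^ m) = MvPolynomial.eval ll R := by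
               rw [hq, lin_der, lin_eval, hll, hR]
             constructor
             · rw [Polynomial.eval_sub, Polynomial.eval_C, hqe]
               have h1 := hh w hw0
               have h2 : |h w - (cell w₀ : ℝ) / 2 ^ U| ≤ 1 / 2 ^ U := by
                 rw [← v2, hcell]
                 simp only
                 have h3 := Int.floor_le ((2 : ℝ) ^ U * h w)
                 have h4 := Int.lt_floor_add_one ((2 : ℝ) ^ U * h w)
                 have h5 : h w - (⌊(2 : ℝ) ^ U * h w⌋ : ℝ) / 2 ^ U =
                     (2 ^ U * h w - ⌊(2 : ℝ) ^ U * h w⌋) / 2 ^ U := by field_simp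
                 rw [h5, abs_div, abs_of_pos h2U]
                 refine div_le_div_of_nonneg_right ?_ h2U.le
                 rw [abs_le]
                 constructor <;> linarith
               have h3 : c₄ * (e * e) / 2 ^ m ≤ c₄ * (e * e) / 2 ^ U :=
                 div_le_div_of_nonneg_left (by positivity) h2U h2Um
               have h4 : e / 2 ^ U ≤ e * e / 2 ^ U :=
                 div_le_div_of_nonneg_right (le_mul_of_one_le_left he0.le he1) h2U.le
               have h5 : 1 / 2 ^ U ≤ e * e / 2 ^ U :=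
                 div_le_div_of_nonneg_right (one_le_mul_of_one_le_of_one_le he1 he1) h2U.le
               have h6 : ε = c₄ * (e * e) / 2 ^ U + e * e / 2 ^ U + e * e / 2 ^ U := by
                 rw [hε]; ring
               have h7 : |h w - MvPolynomial.eval zz Q| ≤ e / 2 ^ U := by
                 rw [hzz]; exact h1
               rw [h6]
               rw [abs_le] at hlQ h2 h7 ⊢
               constructor <;> linarith [hlQ.1, hlQ.2, h2.1, h2.2, h7.1, h7.2]
             · rw [Polynomial.derivative_sub, Polynomial.derivative_C, sub_zero, hqd]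
               have h1 : c₄ * c₃ * (e * e * e) / 2 ^ m ≤ al := by
                 have h2 : c₄ * c₃ * (e * e * e) / 2 ^ m ≤ c₄ * c₃ * (e * e * e) / 2 ^ U :=
                   div_le_div_of_nonneg_left (by positivity) h2U h2Um
                 refine h2.trans ?_
                 rw [hal, hA]
                 have h3 : 4 * N * (c₄ * c₃) ≤ Real.exp (τ₀ / 2 * u) := by
                   linarith [Real.add_one_le_exp (τ₀ / 2 * u)]
                 have h4 : 4 * N * (c₄ * c₃) * (e * e * e) ≤
                     Real.exp (-x) * Real.exp (-(t * u)) * 2 ^ U := by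
                   calc 4 * N * (c₄ * c₃) * (e * e * e) ≤ Real.exp (τ₀ / 2 * u) * (e * e * e) :=
                         mul_le_mul_of_nonneg_right h3 (by positivity)
                     _ = Real.exp (τ₀ / 2 * u + 3 * (τ₁ * u)) := by
                         rw [he, Real.exp_add, ← Real.exp_add, ← Real.exp_add]
                         congr 2
                         ring
                     _ ≤ Real.exp (-x + -(t * u) + u * Real.log 2) := by
                         refine Real.exp_le_exp.2 ?_
                         have h5 : 3 * τ₁ * u ≤ τ₀ / 24 * u := mul_le_mul_of_nonneg_right hτ₁d hu0.le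
                         have h6 : t * u ≤ τ₀ / 4 * u := mul_le_mul_of_nonneg_right ht1 hu0.le
                         have h7 : 0 < τ₀ * u := by positivity
                         linarith
                     _ = _ := by rw [Real.exp_add, Real.exp_add, h2Ue]
                 rw [div_le_iff₀ h2U]
                 have h5 : Real.exp (-x) / (2 * N) * Real.exp (-(t * u)) / 2 * 2 ^ U =
                     Real.exp (-x) * Real.exp (-(t * u)) * 2 ^ U / (4 * N) := by
                   field_simp
                   ring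
                 rw [h5, le_div_iff₀ (by positivity)]
                 linarith
               have h2 : A * Real.exp (-(t * u)) < |MvPolynomial.eval zz R| := by
                 rw [hzz]; exact hbw
               have h3 := abs_sub_abs_le_abs_sub (MvPolynomial.eval zz R) (MvPolynomial.eval ll R)
               have h4 : A * Real.exp (-(t * u)) = al + al := by rw [hal]; ring
               linarith
           have hnat : (q - Polynomial.C ((cell w₀ : ℝ) / 2 ^ U)).natDegree ≤ j := by
             refine (Polynomial.natDegree_sub_le _ _).trans (max_le ?_ ?_)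
             · rw [hq]; exact (lin_deg _ _ _).trans hQ
             · rw [Polynomial.natDegree_C]; exact Nat.zero_le _
           have hcard := count_pts j m _ hnat (F (val w₀)) ε al hal0 hε0 hfin
           have hK : 2 * j * (2 * (2 ^ m * (2 * ε / al)) + 1) ≤ Z * c₆ := by
             have h1 : 2 * (2 ^ m * (2 * ε / al)) = 16 * N * (c₄ + 2) * Z := by
               rw [hε, hal, hA, hZ, Real.exp_add, Real.exp_neg, Real.exp_neg]
               have e1 := (Real.exp_pos x).ne'
               have e2 := (Real.exp_pos (t * u)).ne'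
               field_simp
               ring
             rw [h1, hc₆]
             have h2 : 16 * N * (c₄ + 2) * Z + 1 ≤ (16 * N * (c₄ + 2) + 1) * Z := by linarith
             have h3 : (0 : ℝ) ≤ 2 * j := by positivity
             have h4 := mul_le_mul_of_nonneg_left h2 h3
             linarith
           refine (Real.log_le_log hcpos (hcard.trans hK)).trans (le_of_eq ?_)
           rw [Real.log_mul (by linarith) (by linarith)]
       -- the entropy of the free coordinate given the cell
       exact by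
        have hsc : CH μ (fun w => s w c) val ≤
            (C₀ * u + 2) * Pb μ Bad + (Real.log Z + Real.log c₆) := by
          refine (CH_le_card hp hμ.sum_one (fun w => s w c) val F (fun w hw => by
            rw [hF]
            exact Finset.mem_image.2 ⟨w, Finset.mem_filter.2 ⟨Finset.mem_univ _, hw, rfl⟩, rfl⟩)).trans ?_
          refine (Ex_mono hp hcount).trans (le_of_eq ?_)
          rw [Ex_add, Ex_const hμ.sum_one]
          congr 1
          unfold Ex Pb
          rw [Finset.mul_sum]
          refine Finset.sum_congr rfl fun w _ => ?_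
          by_cases hb : Bad w
          · simp only [if_pos hb]; ring
          · simp only [if_neg hb]; ring
        have hbadent : CH μ Bad (fun w => (cell w, Yc w, so (n := n) c s w)) ≤ 1 := by
          refine (CH_le_card hp hμ.sum_one Bad _ (fun _ => {True, False}) (fun w _ => ?_)).trans ?_
          · by_cases hb : Bad w
            · simp [hb]
            · simp [hb]
          · rw [Ex_const hμ.sum_one]
            have h1 : ((({True, False} : Finset Prop).card : ℕ) : ℝ) ≤ 2 := by
              exact_mod_cast Finset.card_le_two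
            have h2 : (0 : ℝ) < ((({True, False} : Finset Prop).card : ℕ) : ℝ) := by
              exact_mod_cast Finset.card_pos.2 ⟨True, by simp⟩
            refine (Real.log_le_log h2 h1).trans ?_
            linarith [Real.log_two_lt_d9]
        have h1 : CH μ (fun w => s w c) (fun w => (Yc w, so (n := n) c s w)) ≤
            CH μ cell (fun w => (Yc w, so (n := n) c s w)) +
              CH μ (fun w => s w c) (fun w => (cell w, Yc w, so (n := n) c s w)) := CH_le_add hp _ _ _
        have h2 : CH μ (fun w => s w c) (fun w => (cell w, Yc w, so (n := n) c s w)) ≤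
            CH μ Bad (fun w => (cell w, Yc w, so (n := n) c s w)) + CH μ (fun w => s w c) val := by
          rw [hval]
          exact CH_le_add hp _ _ _
        exact by
         have h3 : CH μ cell (fun w => (Yc w, so (n := n) c s w)) ≤ CH μ cell Yc :=
           CH_mono_cond hp (fun ω ω' _ _ h => (Prod.ext_iff.1 h).1)
         have h4 : (C₀ + 2) * CR * τ₁ / t * u ≤ τ₀ / 8 * u := mul_le_mul_of_nonneg_right hτ₁b hu0.le
         have h5 : (N + 3) * τ₁ * u ≤ τ₀ / 24 * u := mul_le_mul_of_nonneg_right hτ₁a hu0.le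
         have h6 : t * u ≤ τ₀ / 4 * u := mul_le_mul_of_nonneg_right ht1 hu0.le
         have h7 : 0 < τ₀ * u := by positivity
         rw [hlogZ] at hsc
         rw [hk₃] at hU3
         linarith

end Pool.Agent.H34.BFL
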