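import Pool.Agent.H34.BFL.Lin

/-!
# Kernels: the last `n` vectors span
-/

set_option autoImplicit false

namespace Pool.Agent.H34.BFL

open Finset Real
open Pool.BFL

variable {n N : ℕ}

/-- The index of the last vectors. -/
def lst (hN : n ≤ N) (k : Fin n) : Fin N := ⟨N - n + k, by omega⟩

/-- The matrix of the last vectors. -/
noncomputable def Am (hN : n ≤ N) (E : Fin N → Fin n → ℝ) : Matrix (Fin n) (Fin n) ℝ :=
  Matrix.of fun i k => E (lst hN k) i

theorem ldet_eq (hN : n ≤ N) (E : Fin N → Fin n → ℝ) : ldet hN E = (Am hN E).det := rfl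

/-- Coordinates with respect to the last vectors. -/
noncomputable def co (hN : n ≤ N) (E : Fin N → Fin n → ℝ) (v : Fin n → ℝ) : Fin n → ℝ :=
  (Am hN E)⁻¹.mulVec v

theorem co_sub (hN : n ≤ N) (E : Fin N → Fin n → ℝ) (v w : Fin n → ℝ) (k : Fin n) :
    co hN E (fun i => v i - w i) k = co hN E v k - co hN E w k := by
  unfold co
  have : (fun i => v i - w i) = v - w := rfl
  rw [this, Matrix.mulVec_sub, Pi.sub_apply]

theorem co_le (hN : n ≤ N) (E : Fin N → Fin n → ℝ) {C₀ κ δ : ℝ} (hC₀ : 1 ≤ C₀) (hκ : 0 < κ)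
    (hE : ∀ a i, |E a i| ≤ C₀) (hd : κ ≤ |ldet hN E|) (v : Fin n → ℝ) (hv : ∀ i, |v i| ≤ δ)
    (k : Fin n) : |co hN E v k| ≤ n * (n.factorial * C₀ ^ n) / κ * δ := by
  have hδ : 0 ≤ δ := (abs_nonneg _).trans (hv k)
  rw [ldet_eq] at hd
  have hdp : 0 < |(Am hN E).det| := lt_of_lt_of_le hκ hd
  unfold co
  rw [Matrix.inv_def, Ring.inverse_eq_inv', Matrix.smul_mulVec, Pi.smul_apply, smul_eq_mul,
    abs_mul, abs_inv]
  have h1 : |(Am hN E).adjugate.mulVec v k| ≤ n * (n.factorial * C₀ ^ n * δ) := by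
    rw [Matrix.mulVec, dotProduct]
    refine (Finset.abs_sum_le_sum_abs _ _).trans ?_
    have h2 : ∀ i ∈ (Finset.univ : Finset (Fin n)),
        |(Am hN E).adjugate k i * v i| ≤ n.factorial * C₀ ^ n * δ := by
      intro i _
      rw [abs_mul]
      exact mul_le_mul (Pool.Agent.H40.BFL.adj_le _ hC₀ (fun b c => hE _ _) k i) (hv i)
        (abs_nonneg _) (by positivity)
    refine (Finset.sum_le_sum h2).trans ?_
    rw [Finset.sum_const, Finset.card_univ, Fintype.card_fin, nsmul_eq_mul]
  have h3 : |(Am hN E).det|⁻¹ ≤ κ⁻¹ := inv_anti₀ hκ hd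
  calc _ ≤ κ⁻¹ * (n * (n.factorial * C₀ ^ n * δ)) :=
        mul_le_mul h3 h1 (abs_nonneg _) (inv_nonneg.2 hκ.le)
    _ = _ := by rw [div_eq_mul_inv]; ring

/-- Splitting of a sum. -/
theorem sum_split (hN : n ≤ N) (f : Fin N → ℝ) :
    ∑ a, f a = (∑ a ∈ univ.filter (fun a : Fin N => a.val < N - n), f a) + ∑ k, f (lst hN k) := by
  rw [← Finset.sum_filter_add_sum_filter_not univ (fun a : Fin N => a.val < N - n)]
  congr 1
  symm
  refine Finset.sum_bij (fun k _ => lst hN k) ?_ ?_ ?_ ?_
  · intro k _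
    rw [Finset.mem_filter]
    refine ⟨Finset.mem_univ _, ?_⟩
    show ¬ (N - n + k.val < N - n)
    omega
  · intro k _ k' _ h
    have h1 : N - n + k.val = N - n + k'.val := congrArg Fin.val h
    exact Fin.ext (by omega)
  · intro a ha
    rw [Finset.mem_filter] at ha
    have h1 := ha.2
    have h2 := a.2
    refine ⟨⟨a.val - (N - n), by omega⟩, Finset.mem_univ _, Fin.ext ?_⟩
    show N - n + (a.val - (N - n)) = a.val
    omega
  · intro k _
    rfl

/-- The coordinates of a combination. -/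
theorem co_sum (hN : n ≤ N) (E : Fin N → Fin n → ℝ) (hd : ldet hN E ≠ 0) (z : Fin N → ℝ)
    (k : Fin n) : co hN E (fun i => ∑ a, z a * E a i) k =
      (∑ a ∈ univ.filter (fun a : Fin N => a.val < N - n), z a * co hN E (E a) k) +
        z (lst hN k) := by
  have hu : IsUnit (Am hN E).det := isUnit_iff_ne_zero.2 hd
  have h1 : (fun i => ∑ a, z a * E a i) =
      (∑ a ∈ univ.filter (fun a : Fin N => a.val < N - n), z a • E a) +
        (Am hN E).mulVec (fun k => z (lst hN k)) := by
    funext i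
    rw [sum_split hN, Pi.add_apply, Finset.sum_apply]
    congr 1
    rw [Matrix.mulVec, dotProduct]
    refine Finset.sum_congr rfl fun k _ => ?_
    show z (lst hN k) * E (lst hN k) i = E (lst hN k) i * z (lst hN k)
    ring
  unfold co
  rw [h1, Matrix.mulVec_add, Matrix.mulVec_mulVec, Matrix.nonsing_inv_mul _ hu, Matrix.one_mulVec,
    Pi.add_apply, Matrix.mulVec_sum, Finset.sum_apply]
  congr 1
  refine Finset.sum_congr rfl fun a _ => ?_
  rw [Matrix.mulVec_smul, Pi.smul_apply, smul_eq_mul]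

/-- The point with given first coordinates and given end point. -/
noncomputable def pt (hN : n ≤ N) (E : Fin N → Fin n → ℝ) (u : Fin N → ℝ) (v : Fin n → ℝ)
    (a : Fin N) : ℝ :=
  if h : a.val < N - n then u a else
    co hN E v ⟨a.val - (N - n), by have := a.2; omega⟩ -
      ∑ b ∈ univ.filter (fun b : Fin N => b.val < N - n), u b *
        co hN E (E b) ⟨a.val - (N - n), by have := a.2; omega⟩

/-- The kernel vector. -/
noncomputable def kv (hN : n ≤ N) (E : Fin N → Fin n → ℝ) (c : Fin N) (a : Fin N) : ℝ :=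
  if h : a.val < N - n then (if a = c then 1 else 0) else
    -co hN E (E c) ⟨a.val - (N - n), by have := a.2; omega⟩

theorem lst_sub (hN : n ≤ N) (k : Fin n) (h : (lst hN k).val - (N - n) < n) :
    (⟨(lst hN k).val - (N - n), h⟩ : Fin n) = k := by
  apply Fin.ext
  show N - n + k.val - (N - n) = k.val
  omega

theorem lst_not (hN : n ≤ N) (k : Fin n) : ¬ (lst hN k).val < N - n := by
  show ¬ (N - n + k.val < N - n)
  omega

theorem kv_lst (hN : n ≤ N) (E : Fin N → Fin n → ℝ) (c : Fin N) (k : Fin n) :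
    kv hN E c (lst hN k) = -co hN E (E c) k := by
  unfold kv
  rw [dif_neg (lst_not hN k), lst_sub]

theorem kv_sum (hN : n ≤ N) (E : Fin N → Fin n → ℝ) (c : Fin N) (hc : c.val < N - n)
    (g : Fin N → ℝ) : ∑ a, kv hN E c a * g a = g c - ∑ k, co hN E (E c) k * g (lst hN k) := by
  rw [sum_split hN, sub_eq_add_neg, ← Finset.sum_neg_distrib]
  congr 1
  · rw [Finset.sum_eq_single c]
    · unfold kv
      rw [dif_pos hc, if_pos rfl, one_mul]
    · intro b hb hbc
      unfold kv
      rw [dif_pos (Finset.mem_filter.1 hb).2, if_neg hbc, zero_mul]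
    · intro h
      exact absurd (Finset.mem_filter.2 ⟨Finset.mem_univ c, hc⟩) h
  · refine Finset.sum_congr rfl fun k _ => ?_
    rw [kv_lst]
    ring

theorem kv_le (hN : n ≤ N) (E : Fin N → Fin n → ℝ) {C₀ κ : ℝ} (hC₀ : 1 ≤ C₀) (hκ : 0 < κ)
    (hE : ∀ a i, |E a i| ≤ C₀) (hd : κ ≤ |ldet hN E|) (c a : Fin N) :
    |kv hN E c a| ≤ 1 + n * (n.factorial * C₀ ^ n) / κ * C₀ := by
  have h0 : 0 ≤ n * (n.factorial * C₀ ^ n) / κ * C₀ := by positivity
  unfold kv
  split_ifs
  · rw [abs_one]; linarith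
  · rw [abs_zero]; linarith
  · rw [abs_neg]
    have := co_le hN E hC₀ hκ hE hd (E c) (hE c) ⟨a.val - (N - n), by omega⟩
    linarith

/-- A point is determined by its first coordinates and its end point. -/
theorem pt_eq (hN : n ≤ N) (E : Fin N → Fin n → ℝ) (hd : ldet hN E ≠ 0) (z : Fin N → ℝ) :
    pt hN E z (fun i => ∑ a, z a * E a i) = z := by
  funext a
  unfold pt
  split_ifs with h
  · rfl
  · rw [co_sum hN E hd]
    have h2 := a.2
    have h3 : lst hN ⟨a.val - (N - n), by omega⟩ = a := by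
      apply Fin.ext
      show N - n + (a.val - (N - n)) = a.val
      omega
    rw [h3]
    ring

/-- Changing one coordinate. -/
theorem pt_line (hN : n ≤ N) (E : Fin N → Fin n → ℝ) (c : Fin N) (hc : c.val < N - n)
    (u : Fin N → ℝ) (v : Fin n → ℝ) (a : Fin N) :
    pt hN E u v a = pt hN E (Function.update u c 0) v a + u c * kv hN E c a := by
  unfold pt kv
  split_ifs with h h1
  · subst h1
    rw [Function.update_self]
    ring
  · rw [Function.update_of_ne h1]
    ring
  · have h1 : ∀ k : Fin n, ∑ b ∈ univ.filter (fun b : Fin N => b.val < N - n), u b * co hN E (E b) k =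
        (∑ b ∈ univ.filter (fun b : Fin N => b.val < N - n),
          Function.update u c 0 b * co hN E (E b) k) + u c * co hN E (E c) k := by
      intro k
      have hcm : c ∈ univ.filter (fun b : Fin N => b.val < N - n) :=
        Finset.mem_filter.2 ⟨Finset.mem_univ _, hc⟩
      rw [← Finset.add_sum_erase _ _ hcm, ← Finset.add_sum_erase (a := c) (s := univ.filter
        (fun b : Fin N => b.val < N - n)) (f := fun b => Function.update u c 0 b * co hN E (E b) k)
        hcm, Function.update_self, zero_mul, zero_add, add_comm]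
      congr 1
      refine Finset.sum_congr rfl fun b hb => ?_
      rw [Function.update_of_ne (Finset.ne_of_mem_erase hb)]
    rw [h1]
    ring

/-- Changing the end point. -/
theorem pt_end (hN : n ≤ N) (E : Fin N → Fin n → ℝ) {C₀ κ δ : ℝ} (hC₀ : 1 ≤ C₀) (hκ : 0 < κ)
    (hE : ∀ a i, |E a i| ≤ C₀) (hd : κ ≤ |ldet hN E|) (u : Fin N → ℝ) (v v' : Fin n → ℝ)
    (hδ : 0 ≤ δ) (hv : ∀ i, |v i - v' i| ≤ δ) (a : Fin N) :
    |pt hN E u v a - pt hN E u v' a| ≤ n * (n.factorial * C₀ ^ n) / κ * δ := by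
  unfold pt
  split_ifs with h
  · rw [sub_self, abs_zero]
    positivity
  · have e : ∀ x y z : ℝ, x - z - (y - z) = x - y := fun x y z => by ring
    rw [e, ← co_sub]
    exact co_le hN E hC₀ hκ hE hd _ hv _

/-- A large variation in the kernel gives a large derivative in one of the kernel vectors. -/
theorem exists_der (hN : n ≤ N) (E : Fin N → Fin n → ℝ) (hd : ldet hN E ≠ 0) (Q : Pl N) {δ : ℝ}
    (hδ : 0 ≤ δ) (hKV : KV δ E (fun σ => MvPolynomial.eval σ Q)) :
    ∃ c : Fin N, c.val < N - n ∧ ∃ ξ : Fin N → ℝ, (∀ a, |ξ a| ≤ 1) ∧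
      δ / (2 * N) ≤ |MvPolynomial.eval ξ (dd (kv hN E c) Q)| := by
  obtain ⟨σ, σ', h1, h2, h3, h4⟩ := hKV
  set z : Fin N → ℝ := fun a => σ a - σ' a with hz
  have hz0 : (fun i => ∑ a, z a * E a i) = fun _ => 0 := by
    funext i
    simp only [hz, sub_mul, Finset.sum_sub_distrib, h3 i, sub_self]
  have hzl : ∀ k, z (lst hN k) =
      -∑ a ∈ univ.filter (fun a : Fin N => a.val < N - n), z a * co hN E (E a) k := by
    intro k
    have h5 := co_sum hN E hd z k
    rw [hz0] at h5
    have h6 : co hN E (fun _ => 0) k = 0 := by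
      unfold co
      have : (fun _ : Fin n => (0 : ℝ)) = 0 := rfl
      rw [this, Matrix.mulVec_zero, Pi.zero_apply]
    rw [h6] at h5
    linarith
  have hzle : ∀ a, |z a| ≤ 2 := by
    intro a
    have := (abs_sub (σ a) (σ' a)).trans (add_le_add (h1 a) (h2 a))
    simp only [hz]
    linarith
  set P := lin σ' z Q with hP
  have p0 : P.eval 0 = MvPolynomial.eval σ' Q := by
    rw [hP, lin_eval]
    congr 2
    funext a
    ring
  have p1 : P.eval 1 = MvPolynomial.eval σ Q := by
    rw [hP, lin_eval]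
    congr 2
    funext a
    simp only [hz]
    ring
  obtain ⟨t, ht, ht'⟩ := exists_deriv_eq_slope (fun t => P.eval t) (zero_lt_one : (0 : ℝ) < 1)
    (P.continuous.continuousOn) (P.differentiable.differentiableOn)
  rw [Polynomial.deriv, sub_zero, div_one, p0, p1] at ht'
  rw [← ht', hP, lin_der, lin_eval, eval_dd] at h4
  set ξ : Fin N → ℝ := fun a => σ' a + t * z a with hξ
  have hξ1 : ∀ a, |ξ a| ≤ 1 := by
    intro a
    have e : ξ a = (1 - t) * σ' a + t * σ a := by simp only [hξ, hz]; ring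
    rw [e]
    refine (abs_add_le _ _).trans ?_
    rw [abs_mul, abs_mul, abs_of_nonneg (by linarith [ht.2]), abs_of_nonneg ht.1.le]
    nlinarith [h1 a, h2 a, ht.1, ht.2]
  set g : Fin N → ℝ := fun a => MvPolynomial.eval ξ (MvPolynomial.pderiv a Q) with hg
  have key : ∑ a, z a * g a = ∑ c ∈ univ.filter (fun a : Fin N => a.val < N - n),
      z c * MvPolynomial.eval ξ (dd (kv hN E c) Q) := by
    rw [sum_split hN]
    have e1 : ∀ c ∈ univ.filter (fun a : Fin N => a.val < N - n),
        z c * MvPolynomial.eval ξ (dd (kv hN E c) Q) =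
          z c * g c - ∑ k, z c * co hN E (E c) k * g (lst hN k) := by
      intro c hc
      rw [eval_dd, kv_sum hN E c (Finset.mem_filter.1 hc).2, mul_sub, Finset.mul_sum]
      congr 1
      refine Finset.sum_congr rfl fun k _ => ?_
      ring
    rw [Finset.sum_congr rfl e1, Finset.sum_sub_distrib, Finset.sum_comm, sub_eq_add_neg,
      ← Finset.sum_neg_distrib]
    congr 1
    refine Finset.sum_congr rfl fun k _ => ?_
    rw [hzl k, ← Finset.sum_mul]
    ring
  rw [key] at h4
  by_contra hcon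
  push Not at hcon
  have h5 : |∑ c ∈ univ.filter (fun a : Fin N => a.val < N - n),
      z c * MvPolynomial.eval ξ (dd (kv hN E c) Q)| ≤
      ∑ _c ∈ univ.filter (fun a : Fin N => a.val < N - n), 2 * (δ / (2 * N)) := by
    refine (Finset.abs_sum_le_sum_abs _ _).trans (Finset.sum_le_sum fun c hc => ?_)
    rw [abs_mul]
    exact mul_le_mul (hzle c) (hcon c (Finset.mem_filter.1 hc).2 ξ hξ1).le (abs_nonneg _)
      (by norm_num)
  rw [Finset.sum_const, nsmul_eq_mul] at h5
  have h6 : ((univ.filter (fun a : Fin N => a.val < N - n)).card : ℝ) ≤ N := by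
    have := Finset.card_le_univ (univ.filter (fun a : Fin N => a.val < N - n))
    rw [Fintype.card_fin] at this
    exact_mod_cast this
  have h7 : (0 : ℝ) ≤ 2 * (δ / (2 * N)) := by positivity
  have h8 := h5.trans (mul_le_mul_of_nonneg_right h6 h7)
  have h9 : (N : ℝ) * (2 * (δ / (2 * N))) ≤ δ := by
    rcases eq_or_lt_of_le (Nat.cast_nonneg N : (0 : ℝ) ≤ N) with h0 | h0
    · rw [← h0, zero_mul]
      exact hδ
    · exact le_of_eq (by field_simp)
  linarith

end Pool.Agent.H34.BFL
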