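import Pool.Agent.H40.BFL.UNQ
import Pool.Agent.H36.KBX.Coef

/-!
# Restriction of polynomials to lines, kernels of a spanning family of vectors
-/

set_option autoImplicit false

namespace Pool.Agent.H34.BFL

open Finset Real
open Pool.BFL

variable {N : ℕ}

/-- The restriction of a polynomial to a line. -/
noncomputable def lin (y h : Fin N → ℝ) (Q : Pl N) : Polynomial ℝ :=
  MvPolynomial.aeval (fun a => Polynomial.C (y a) + Polynomial.X * Polynomial.C (h a)) Q

theorem lin_eval (y h : Fin N → ℝ) (Q : Pl N) (t : ℝ) :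
    (lin y h Q).eval t = MvPolynomial.eval (fun a => y a + t * h a) Q := by
  unfold lin
  induction Q using MvPolynomial.induction_on with
  | C r => simp
  | add p q hp hq => rw [map_add, Polynomial.eval_add, hp, hq, map_add]
  | mul_X p i hp =>
    rw [map_mul, Polynomial.eval_mul, hp, map_mul, MvPolynomial.aeval_X, MvPolynomial.eval_X,
      Polynomial.eval_add, Polynomial.eval_mul, Polynomial.eval_C, Polynomial.eval_C,
      Polynomial.eval_X]

/-- The derivative of a polynomial in a direction. -/
noncomputable def dd (h : Fin N → ℝ) (Q : Pl N) : Pl N :=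
  ∑ a, MvPolynomial.C (h a) * MvPolynomial.pderiv a Q

theorem eval_dd (h : Fin N → ℝ) (Q : Pl N) (x : Fin N → ℝ) :
    MvPolynomial.eval x (dd h Q) = ∑ a, h a * MvPolynomial.eval x (MvPolynomial.pderiv a Q) := by
  unfold dd
  rw [map_sum]
  refine Finset.sum_congr rfl fun a _ => ?_
  rw [map_mul, MvPolynomial.eval_C]

theorem lin_der (y h : Fin N → ℝ) (Q : Pl N) : (lin y h Q).derivative = lin y h (dd h Q) := by
  classical
  unfold lin dd
  induction Q using MvPolynomial.induction_on with
  | C r =>
    simp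
  | add p q hp hq =>
    rw [map_add, Polynomial.derivative_add, hp, hq, ← map_add, ← Finset.sum_add_distrib]
    congr 1
    refine Finset.sum_congr rfl fun a _ => ?_
    rw [map_add, mul_add]
  | mul_X p i hp =>
    rw [map_mul, Polynomial.derivative_mul, hp, MvPolynomial.aeval_X]
    have h1 : (∑ a, MvPolynomial.C (h a) * MvPolynomial.pderiv a (p * MvPolynomial.X i)) =
        (∑ a, MvPolynomial.C (h a) * MvPolynomial.pderiv a p) * MvPolynomial.X i +
          p * MvPolynomial.C (h i) := by
      have h2 : ∀ a, MvPolynomial.C (h a) * MvPolynomial.pderiv a (p * MvPolynomial.X i) =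
          (MvPolynomial.C (h a) * MvPolynomial.pderiv a p) * MvPolynomial.X i +
            (if a = i then p * MvPolynomial.C (h i) else 0) := by
        intro a
        rw [Derivation.leibniz]
        by_cases hai : a = i
        · subst hai
          rw [MvPolynomial.pderiv_X_self, if_pos rfl, smul_eq_mul, smul_eq_mul]
          ring
        · rw [MvPolynomial.pderiv_X_of_ne (fun e => hai e.symm), if_neg hai, smul_eq_mul,
            smul_eq_mul]
          ring
      rw [Finset.sum_congr rfl fun a _ => h2 a, Finset.sum_add_distrib, ← Finset.sum_mul,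
        Finset.sum_ite_eq' Finset.univ i, if_pos (Finset.mem_univ i)]
    have h3 : Polynomial.derivative (Polynomial.C (y i) + Polynomial.X * Polynomial.C (h i)) =
        Polynomial.C (h i) := by simp
    rw [h1, h3, map_add]
    generalize (∑ a, MvPolynomial.C (h a) * (MvPolynomial.pderiv a) p) = R
    rw [map_mul, map_mul, MvPolynomial.aeval_X, MvPolynomial.algHom_C]
    rfl

theorem lin_deg (y h : Fin N → ℝ) (Q : Pl N) : (lin y h Q).natDegree ≤ Q.totalDegree := by
  unfold lin
  rw [MvPolynomial.aeval_def, MvPolynomial.eval₂_eq]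
  refine Polynomial.natDegree_sum_le_of_forall_le _ _ fun m hm => ?_
  refine (Polynomial.natDegree_mul_le).trans ?_
  have h1 : (algebraMap ℝ (Polynomial ℝ) (MvPolynomial.coeff m Q)).natDegree = 0 := by
    rw [Polynomial.algebraMap_apply]
    exact Polynomial.natDegree_C _
  rw [h1, zero_add]
  refine (Polynomial.natDegree_prod_le _ _).trans ?_
  have h2 : ∀ l ∈ m.support,
      ((Polynomial.C (y l) + Polynomial.X * Polynomial.C (h l)) ^ m l).natDegree ≤ m l := by
    intro l _
    refine (Polynomial.natDegree_pow_le).trans ?_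
    have h3 : (Polynomial.C (y l) + Polynomial.X * Polynomial.C (h l)).natDegree ≤ 1 := by
      refine (Polynomial.natDegree_add_le _ _).trans ?_
      rw [Polynomial.natDegree_C]
      refine max_le (Nat.zero_le _) ?_
      exact (Polynomial.natDegree_mul_C_le _ _).trans Polynomial.natDegree_X_le
    calc m l * _ ≤ m l * 1 := Nat.mul_le_mul_left _ h3
      _ = m l := mul_one _
  refine (Finset.sum_le_sum h2).trans ?_
  exact MvPolynomial.le_totalDegree hm

theorem dd_deg (h : Fin N → ℝ) (Q : Pl N) : (dd h Q).totalDegree ≤ Q.totalDegree := by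
  unfold dd
  refine MvPolynomial.totalDegree_finsetSum_le fun a _ => ?_
  refine (MvPolynomial.totalDegree_mul _ _).trans ?_
  rw [MvPolynomial.totalDegree_C, zero_add]
  exact Pool.Agent.H50.PW.totalDegree_pderiv_le Q a

/-- Bound for the coefficients of the directional derivative. -/
theorem dd_CB {j : ℕ} {h : Fin N → ℝ} {Q : Pl N} {r l : ℝ} (hQ : Q.totalDegree ≤ j) (hr : CB Q r)
    (hl : ∀ a, |h a| ≤ l) (hl0 : 0 ≤ l) : CB (dd h Q) (N * (l * (r * (j + 1)))) := by
  intro k
  unfold dd
  rw [MvPolynomial.coeff_sum]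
  refine (Finset.abs_sum_le_sum_abs _ _).trans ?_
  have h1 : ∀ a ∈ (Finset.univ : Finset (Fin N)),
      |MvPolynomial.coeff k (MvPolynomial.C (h a) * MvPolynomial.pderiv a Q)| ≤
        l * (r * (j + 1)) := by
    intro a _
    rw [MvPolynomial.coeff_C_mul, abs_mul]
    exact mul_le_mul (hl a) (Pool.Agent.H36.KBX.coeff_pderiv_bound Q hQ r hr a k) (abs_nonneg _) hl0
  refine (Finset.sum_le_sum h1).trans ?_
  rw [Finset.sum_const, Finset.card_univ, Fintype.card_fin, nsmul_eq_mul]

/-- Two points near each other. -/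
theorem lip {j : ℕ} {Q : Pl N} {r ρ : ℝ} (hQ : Q.totalDegree ≤ j) (hr : CB Q r) (hρ : 1 ≤ ρ)
    (x y : Fin N → ℝ) (hx : ∀ a, |x a| ≤ ρ) (hy : ∀ a, |y a| ≤ ρ) (δ : ℝ)
    (hxy : ∀ a, |x a - y a| ≤ δ) :
    |MvPolynomial.eval x Q - MvPolynomial.eval y Q| ≤
      N * (δ * ((Pool.Agent.H36.KBX.bx N j).card * (r * (j + 1) * ρ ^ (N * j)))) := by
  rcases Nat.eq_zero_or_pos N with hN | hN
  · subst hN
    rw [Subsingleton.elim x y, sub_self, abs_zero]
    simp
  have hδ : 0 ≤ δ := (abs_nonneg _).trans (hxy ⟨0, hN⟩)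
  have hr0 : 0 ≤ r := (abs_nonneg _).trans (hr 0)
  set P := lin y (fun a => x a - y a) Q with hP
  have h0 : P.eval 0 = MvPolynomial.eval y Q := by
    rw [hP, lin_eval]
    congr 2
    funext a
    ring
  have h1 : P.eval 1 = MvPolynomial.eval x Q := by
    rw [hP, lin_eval]
    congr 2
    funext a
    ring
  obtain ⟨c, hc, hc'⟩ := exists_deriv_eq_slope (fun t => P.eval t) (zero_lt_one : (0 : ℝ) < 1)
    (P.continuous.continuousOn) (P.differentiable.differentiableOn)
  rw [Polynomial.deriv, sub_zero, div_one, h0, h1] at hc'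
  rw [← hc', hP, lin_der, lin_eval, eval_dd]
  refine (Finset.abs_sum_le_sum_abs _ _).trans ?_
  have h2 : ∀ a ∈ (Finset.univ : Finset (Fin N)),
      |(x a - y a) * MvPolynomial.eval (fun a => y a + c * (x a - y a))
        (MvPolynomial.pderiv a Q)| ≤
        δ * ((Pool.Agent.H36.KBX.bx N j).card * (r * (j + 1) * ρ ^ (N * j))) := by
    intro a _
    rw [abs_mul]
    refine mul_le_mul (hxy a) ?_ (abs_nonneg _) hδ
    refine Pool.Agent.H36.KBX.eval_bound _ ((Pool.Agent.H50.PW.totalDegree_pderiv_le Q a).trans hQ)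
      _ _ hρ (fun k => Pool.Agent.H36.KBX.coeff_pderiv_bound Q hQ r hr a k) _ ?_
    intro b
    have e : y b + c * (x b - y b) = (1 - c) * y b + c * x b := by ring
    rw [e]
    refine (abs_add_le _ _).trans ?_
    rw [abs_mul, abs_mul, abs_of_nonneg (by linarith [hc.2]), abs_of_nonneg hc.1.le]
    nlinarith [hx b, hy b, hc.1, hc.2]
  refine (Finset.sum_le_sum h2).trans ?_
  rw [Finset.sum_const, Finset.card_univ, Fintype.card_fin, nsmul_eq_mul]

end Pool.Agent.H34.BFL
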